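import Pool.Agent.N452.TF.Cov

set_option autoImplicit false

/-! # Few subfunctions of formulas of bilinear maps -/

namespace Pool.Agent.N452.TF

open Finset

variable {ι : Type} {D : ι → Type} {w q d : ℕ}

open Classical in
/-- The input which agrees with `a` on the coordinates in `A` and with `z` on the others. -/
noncomputable def ovr (A : Set ι) (a z : ∀ i, D i) : ∀ i, D i :=
  fun i => if i ∈ A then a i else z i

theorem ovr_of_mem {A : Set ι} {a z : ∀ i, D i} {i : ι} (h : i ∈ A) : ovr A a z i = a i := by
  unfold ovr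
  rw [if_pos h]

theorem ovr_of_not {A : Set ι} {a z : ∀ i, D i} {i : ι} (h : i ∉ A) : ovr A a z i = z i := by
  unfold ovr
  rw [if_neg h]

namespace Leaf

variable {E : Type}

theorem val_ovr (A : Set ι) (L : Leaf ι D w q E) (h : ¬ L.Sees A) (a z : ∀ i, D i) :
    L.val (ovr A a z) = L.val z := by
  cases L with
  | item j f =>
    simp only [val]
    rw [ovr_of_not h]
  | word τ =>
    simp only [val]
    congr 1
    funext k
    have hk : τ.item k ∉ A := fun hk => h ⟨k, hk⟩
    rw [ovr_of_not hk]

open Classical in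
/-- the functions which arise from a leaf -/
theorem family {Y : Type} (hq : 1 ≤ q) (A : Set ι) (a : Y → ∀ i, D i) (L : Leaf ι D w q E)
    (h : L.Sees A) :
    ∃ (κ : Type) (_ : Fintype κ) (f : κ → Y → E), Fintype.card κ ≤ q ^ (w - 1) ∧
      ∀ z : (∀ i, D i), ∃ k, (fun v => L.val (ovr A (a v) z)) = f k := by
  cases L with
  | item j g =>
    refine ⟨Unit, inferInstance, fun _ v => g (a v j), ?_, fun z => ⟨(), ?_⟩⟩
    · rw [Fintype.card_unit]
      exact Nat.one_le_pow _ _ hq
    · funext v
      simp only [val]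
      rw [ovr_of_mem h]
  | word τ =>
    obtain ⟨k0, hk0⟩ := h
    refine ⟨{k : Fin w // k ≠ k0} → Fin q, inferInstance, fun c => fun v =>
      τ.out (fun k => if τ.item k ∈ A then τ.view k (a v (τ.item k)) else
        if h : k ≠ k0 then c ⟨k, h⟩ else τ.view k (a v (τ.item k))), ?_, fun z => ?_⟩
    · rw [Fintype.card_fun, Fintype.card_fin]
      apply le_of_eq
      congr 1
      rw [Fintype.card_subtype_compl]
      simp
    · refine ⟨fun k => τ.view k.1 (z (τ.item k.1)), ?_⟩
      funext v
      simp only [val]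
      congr 1
      funext k
      by_cases hk : τ.item k ∈ A
      · rw [if_pos hk, ovr_of_mem hk]
      · have hk1 : k ≠ k0 := by rintro rfl; exact hk hk0
        rw [if_neg hk, dif_pos hk1, ovr_of_not hk]

open Classical in
/-- The number of the readings of coordinates in `A` is one or zero. -/
noncomputable def reads (A : Set ι) (L : Leaf ι D w q E) : ℕ := if L.Sees A then 1 else 0

theorem reads_pos {A : Set ι} {L : Leaf ι D w q E} (h : L.Sees A) : L.reads A = 1 := by
  unfold reads
  rw [if_pos h]

theorem reads_zero {A : Set ι} {L : Leaf ι D w q E} (h : ¬ L.Sees A) : L.reads A = 0 := by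
  unfold reads
  rw [if_neg h]

theorem sees_iff (A : Set ι) (L : Leaf ι D w q E) : L.Sees A ↔ L.reads A ≠ 0 := by
  constructor
  · intro h
    rw [reads_pos h]
    norm_num
  · intro h
    by_contra hc
    exact h (reads_zero hc)

open Classical in
theorem sum_reads_le {ζ : Type} (I : Finset ζ) (A : ζ → Set ι) (c : ι → ℕ)
    (hc : ∀ j, (I.filter (fun i => j ∈ A i)).card ≤ c j) (L : Leaf ι D w q E) :
    ∑ i ∈ I, L.reads (A i) ≤ L.size c := by
  cases L with
  | item j f =>
    simp only [reads, size]
    rw [← card_filter]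
    exact hc j
  | word τ =>
    calc ∑ i ∈ I, (word τ : Leaf ι D w q E).reads (A i)
        ≤ ∑ i ∈ I, ∑ k, (if τ.item k ∈ A i then 1 else 0) := by
          apply sum_le_sum
          intro i _
          by_cases h : (word τ : Leaf ι D w q E).Sees (A i)
          · rw [reads_pos h]
            obtain ⟨k, hk⟩ := h
            calc 1 = if τ.item k ∈ A i then 1 else 0 := by rw [if_pos hk]
              _ ≤ _ := single_le_sum (f := fun k => if τ.item k ∈ A i then 1 else 0)
                (fun _ _ => Nat.zero_le _) (mem_univ k)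
          · rw [reads_zero h]
            exact Nat.zero_le _
      _ = ∑ k, (I.filter (fun i => τ.item k ∈ A i)).card := by
          rw [sum_comm]
          exact sum_congr rfl fun k _ => (card_filter _ _).symm
      _ ≤ _ := sum_le_sum fun k _ => hc _

end Leaf

namespace Fml

/-- The number of leaves which see a coordinate in `A`. -/
noncomputable def reads (A : Set ι) : Fml ι D w q d → ℕ
  | const _ => 0
  | leaf L => L.reads A
  | act L F => L.reads A + F.reads A
  | add F G => F.reads A + G.reads A
  | bil _ F G => F.reads A + G.reads A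
  | test _ _ F => F.reads A
  | sym _ _ _ F => ∑ j, (F j).reads A

theorem sees_iff (A : Set ι) (F : Fml ι D w q d) : F.Sees A ↔ F.reads A ≠ 0 := by
  induction F with
  | const c => simp [Sees, reads]
  | leaf L => exact L.sees_iff A
  | act L F ih =>
    simp only [Sees, reads, ih, L.sees_iff A]
    omega
  | add F G ihF ihG =>
    simp only [Sees, reads, ihF, ihG]
    omega
  | bil b F G ihF ihG =>
    simp only [Sees, reads, ihF, ihG]
    omega
  | test l h F ih => exact ih
  | sym k l h F ih =>
    simp only [Sees, reads, ih, ne_eq, sum_eq_zero_iff, mem_univ, true_imp_iff, not_forall]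

theorem eval_ovr (A : Set ι) (F : Fml ι D w q d) (h : F.reads A = 0) (a z : ∀ i, D i) :
    F.eval (ovr A a z) = F.eval z := by
  induction F with
  | const c => rfl
  | leaf L =>
    simp only [eval]
    exact L.val_ovr A (fun h9 => (L.sees_iff A).1 h9 h) a z
  | act L F ih =>
    simp only [reads] at h
    have hL : ¬ L.Sees A := fun h9 => (L.sees_iff A).1 h9 (by omega)
    simp only [eval]
    rw [ih (by omega), L.val_ovr A hL]
  | add F G ihF ihG =>
    simp only [reads] at h
    simp only [eval]
    rw [ihF (by omega), ihG (by omega)]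
  | bil b F G ihF ihG =>
    simp only [reads] at h
    simp only [eval]
    rw [ihF (by omega), ihG (by omega)]
  | test l g F ih =>
    simp only [reads] at h
    simp only [eval]
    rw [ih h]
  | sym k l H F ih =>
    simp only [reads] at h
    simp only [eval]
    have h1 : ∀ j, (F j).eval (ovr A a z) = (F j).eval z := fun j =>
      ih j (by
        have := (sum_eq_zero_iff (s := univ) (f := fun j => (F j).reads A)).1 h
        exact this j (mem_univ j))
    simp only [h1]

open Classical in
/-- The prices pay for the readings. -/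
theorem sum_reads_le {ζ : Type} (I : Finset ζ) (A : ζ → Set ι) (c : ι → ℕ)
    (hc : ∀ j, (I.filter (fun i => j ∈ A i)).card ≤ c j) (F : Fml ι D w q d) :
    ∑ i ∈ I, F.reads (A i) ≤ F.size c := by
  induction F with
  | const c => simp [reads, size]
  | leaf L => exact L.sum_reads_le I A c hc
  | act L F ih =>
    have h1 := L.sum_reads_le I A c hc
    simp only [reads, size, sum_add_distrib]
    omega
  | add F G ihF ihG =>
    simp only [reads, size, sum_add_distrib]
    omega
  | bil b F G ihF ihG =>
    simp only [reads, size, sum_add_distrib]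
    omega
  | test l g F ih => exact ih
  | sym k l H F ih =>
    simp only [reads, size]
    rw [sum_comm]
    calc ∑ j, ∑ i ∈ I, (F j).reads (A i) ≤ ∑ j, (F j).size c := sum_le_sum fun j _ => ih j
      _ ≤ _ := by omega

theorem reads_le_size (A : Set ι) (c : ι → ℕ) (hc : ∀ j ∈ A, 1 ≤ c j) (F : Fml ι D w q d) :
    F.reads A ≤ F.size c := by
  classical
  have h := sum_reads_le ({()} : Finset Unit) (fun _ => A) c (fun j => by
    by_cases hj : j ∈ A
    · simpa [hj] using hc j hj
    · simp [hj]) F
  simpa using h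

/-- The functions of the coordinates in `A`. -/
def Sub {Y : Type} (A : Set ι) (a : Y → ∀ i, D i) (F : Fml ι D w q d) : Set (Y → Fin d → ℝ) :=
  {g | ∃ (z : ∀ i, D i) (u : (Fin d → ℝ) → Fin d → ℝ), Un u ∧
    g = fun v => u (F.eval (ovr A (a v) z))}

theorem mem_sub_id {Y : Type} (A : Set ι) (a : Y → ∀ i, D i) (F : Fml ι D w q d) (z : ∀ i, D i) :
    (fun v => F.eval (ovr A (a v) z)) ∈ F.Sub A a := ⟨z, id, Un.id, rfl⟩

theorem base_bound {M B q w d : ℕ} (hM : 2 ≤ M) (hq : 1 ≤ q)
    (hB : B = 2 * M ^ (d ^ 2 + 4 * d + 2) * q ^ (w - 1)) :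
    M * (M ^ (d ^ 2 + d) + M ^ (3 * d + 1)) ≤ B ∧
      q ^ (w - 1) * M ^ d * (M ^ (d ^ 2 + d) + M ^ (3 * d + 1)) ≤ B ∧ 1 ≤ B := by
  have h1 : M ^ (d ^ 2 + d) ≤ M ^ (d ^ 2 + 3 * d + 1) := Nat.pow_le_pow_right (by omega) (by omega)
  have h2 : M ^ (3 * d + 1) ≤ M ^ (d ^ 2 + 3 * d + 1) := Nat.pow_le_pow_right (by omega) (by omega)
  have h3 : 1 ≤ q ^ (w - 1) := Nat.one_le_pow _ _ hq
  have h4 : M ^ (d ^ 2 + 3 * d + 2) ≤ M ^ (d ^ 2 + 4 * d + 2) :=
    Nat.pow_le_pow_right (by omega) (by omega)
  have h5 : M ^ (d ^ 2 + 4 * d + 1) ≤ M ^ (d ^ 2 + 4 * d + 2) :=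
    Nat.pow_le_pow_right (by omega) (by omega)
  have e : M * (M ^ (d ^ 2 + d) + M ^ (3 * d + 1)) ≤ 2 * M ^ (d ^ 2 + 4 * d + 2) := by
    calc M * (M ^ (d ^ 2 + d) + M ^ (3 * d + 1)) ≤ M * (2 * M ^ (d ^ 2 + 3 * d + 1)) :=
          Nat.mul_le_mul_left _ (by omega)
      _ = 2 * M ^ (d ^ 2 + 3 * d + 2) := by ring
      _ ≤ _ := by omega
  have e' : M ^ d * (M ^ (d ^ 2 + d) + M ^ (3 * d + 1)) ≤ 2 * M ^ (d ^ 2 + 4 * d + 2) := by
    calc M ^ d * (M ^ (d ^ 2 + d) + M ^ (3 * d + 1)) ≤ M ^ d * (2 * M ^ (d ^ 2 + 3 * d + 1)) :=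
          Nat.mul_le_mul_left _ (by omega)
      _ = 2 * M ^ (d ^ 2 + 4 * d + 1) := by ring
      _ ≤ _ := by omega
  refine ⟨?_, ?_, ?_⟩
  · rw [hB]
    calc M * (M ^ (d ^ 2 + d) + M ^ (3 * d + 1)) ≤ 2 * M ^ (d ^ 2 + 4 * d + 2) * 1 := by omega
      _ ≤ _ := Nat.mul_le_mul_left _ h3
  · rw [hB, mul_assoc, mul_comm]
    exact Nat.mul_le_mul_right _ e'
  · rw [hB]
    exact Nat.succ_le_of_lt (by positivity)

open Classical in
theorem cov {Y : Type} [Fintype Y] (A : Set ι) (a : Y → ∀ i, D i) (c : ι → ℕ)
    (hc : ∀ j ∈ A, 1 ≤ c j) (s M B : ℕ) (hq : 1 ≤ q)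
    (hM : 4 * Fintype.card Y * (3 * s + 1) + 2 + s ≤ M)
    (hB : B = 2 * M ^ (d ^ 2 + 4 * d + 2) * q ^ (w - 1)) (F : Fml ι D w q d) (hs : F.size c ≤ s)
    (h : 1 ≤ F.reads A) :
    Cov M (3 * F.reads A - 1) (B ^ (2 * F.reads A - 1)) (F.Sub A a) := by
  obtain ⟨hB1, hB2, hB3⟩ := base_bound (M := M) (B := B) (q := q) (w := w) (d := d)
    (by omega) hq hB
  have hMd : ∀ e, e ≤ 3 * s → 4 * Fintype.card Y * (e + 1) + 2 ≤ M := by
    intro e he
    have : 4 * Fintype.card Y * (e + 1) ≤ 4 * Fintype.card Y * (3 * s + 1) :=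
      Nat.mul_le_mul_left _ (by omega)
    omega
  obtain ⟨V, hV⟩ : ∃ V, V = M ^ (d ^ 2 + d) + M ^ (3 * d + 1) := ⟨_, rfl⟩
  rw [← hV] at hB1 hB2
  have hVB : V ≤ B := (Nat.le_mul_of_pos_left _ (by omega)).trans hB1
  have hMp : 1 ≤ M ^ d := Nat.one_le_pow _ _ (by omega)
  have hqp : 1 ≤ q ^ (w - 1) := Nat.one_le_pow _ _ hq
  have hB4 : q ^ (w - 1) * V ≤ B := by
    refine le_trans ?_ hB2
    apply Nat.mul_le_mul_right
    exact Nat.le_mul_of_pos_right _ (by omega)
  -- the step for gates with two live children
  have step : ∀ r₁ r₂ : ℕ, 1 ≤ r₁ → 1 ≤ r₂ →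
      B ^ (2 * r₁ - 1) * B ^ (2 * r₂ - 1) * V ≤ B ^ (2 * (r₁ + r₂) - 1) := by
    intro r₁ r₂ h₁ h₂
    rw [← pow_add]
    calc B ^ (2 * r₁ - 1 + (2 * r₂ - 1)) * V ≤ B ^ (2 * r₁ - 1 + (2 * r₂ - 1)) * B :=
          Nat.mul_le_mul_left _ hVB
      _ = B ^ (2 * (r₁ + r₂) - 1) := by
          rw [← pow_succ]
          congr 1
          omega
  induction F with
  | const c => simp [reads] at h
  | leaf L =>
    have hL : L.Sees A := (L.sees_iff A).2 (by
      simp only [reads] at h
      omega)
    obtain ⟨κ, _, f, hκ, hf⟩ := L.family hq A a hL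
    have h1 := (cov_of_finite (M := M) f).un (hMd 0 (by omega))
    rw [← hV] at h1
    have hr : (leaf L : Fml ι D w q d).reads A = 1 := L.reads_pos hL
    rw [hr]
    refine h1.mono (by norm_num) ?_ ?_
    · rw [show 2 * 1 - 1 = 1 by norm_num, pow_one]
      exact (Nat.mul_le_mul_right _ hκ).trans hB4
    · rintro g ⟨z, u, hu, rfl⟩
      obtain ⟨k, hk⟩ := hf z
      refine ⟨_, ⟨k, rfl⟩, u, hu, ?_⟩
      rw [← hk]
      rfl
  | act L F ih =>
    simp only [size] at hs
    simp only [reads] at h ⊢
    have r1 := F.reads_le_size A c hc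
    by_cases hL : L.Sees A
    · obtain ⟨κ, _, f, hκ, hf⟩ := L.family hq A a hL
      rw [L.reads_pos hL]
      have r2 : 1 ≤ L.size c := by
        have h9 := L.sum_reads_le ({()} : Finset Unit) (fun _ => A) c (fun j => by
          by_cases hj : j ∈ A
          · simpa [hj] using hc j hj
          · simp [hj])
        rw [sum_singleton, L.reads_pos hL] at h9
        exact h9
      by_cases hF : F.reads A = 0
      · have h1 := ((cov_const (Y := Y) (M := M) (d := d)).act f).un (hMd 1 (by omega))
        rw [← hV] at h1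
        rw [hF]
        refine h1.mono (by norm_num) ?_ ?_
        · rw [show 2 * (1 + 0) - 1 = 1 by norm_num, pow_one]
          refine le_trans ?_ hB2
          apply Nat.mul_le_mul_right
          exact Nat.mul_le_mul_right _ hκ
        · rintro g ⟨z, u, hu, rfl⟩
          obtain ⟨k, hk⟩ := hf z
          refine ⟨_, ⟨k, _, ⟨F.eval z, rfl⟩, rfl⟩, u, hu, ?_⟩
          funext v
          simp only [eval]
          rw [F.eval_ovr A hF, ← hk]
      · have h1 := ((ih (by omega) (by omega)).act f).un (hMd _ (by omega))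
        rw [← hV] at h1
        refine h1.mono (by omega) ?_ ?_
        · calc Fintype.card κ * B ^ (2 * F.reads A - 1) * V
              ≤ q ^ (w - 1) * B ^ (2 * F.reads A - 1) * V :=
                Nat.mul_le_mul_right _ (Nat.mul_le_mul_right _ hκ)
            _ = B ^ (2 * F.reads A - 1) * (q ^ (w - 1) * V) := by ring
            _ ≤ B ^ (2 * F.reads A - 1) * B := Nat.mul_le_mul_left _ hB4
            _ = B ^ (2 * F.reads A - 1 + 1) := (pow_succ _ _).symm
            _ ≤ _ := Nat.pow_le_pow_right hB3 (by omega)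
        · rintro g ⟨z, u, hu, rfl⟩
          obtain ⟨k, hk⟩ := hf z
          refine ⟨_, ⟨k, _, F.mem_sub_id A a z, rfl⟩, u, hu, ?_⟩
          funext v
          simp only [eval]
          rw [← hk]
    · rw [L.reads_zero hL] at h ⊢
      rw [zero_add] at h ⊢
      refine (ih (by omega) h).mono le_rfl le_rfl ?_
      rintro g ⟨z, u, hu, rfl⟩
      refine ⟨z, _, hu.comp (L.val z) (fun _ => 0), ?_⟩
      funext v
      simp only [eval]
      rw [L.val_ovr A hL]
      congr 1
      funext j
      rw [add_zero]
  | add F G ihF ihG =>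
    simp only [size] at hs
    simp only [reads] at h ⊢
    by_cases hF : F.reads A = 0
    · have h1 := ihG (by omega) (by omega)
      rw [hF, zero_add]
      refine h1.mono le_rfl le_rfl ?_
      rintro g ⟨z, u, hu, rfl⟩
      refine ⟨z, _, hu.comp (fun j a => if j = a then 1 else 0) (F.eval z), ?_⟩
      funext v
      simp only [eval]
      rw [F.eval_ovr A hF]
      congr 1
      funext j
      simp [add_comm]
    by_cases hG : G.reads A = 0
    · have h1 := ihF (by omega) (by omega)
      rw [hG, add_zero]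
      refine h1.mono le_rfl le_rfl ?_
      rintro g ⟨z, u, hu, rfl⟩
      refine ⟨z, _, hu.comp (fun j a => if j = a then 1 else 0) (G.eval z), ?_⟩
      funext v
      simp only [eval]
      rw [G.eval_ovr A hG]
      congr 1
      funext j
      simp
    have r1 := F.reads_le_size A c hc
    have r2 := G.reads_le_size A c hc
    have h1 := ((ihF (by omega) (by omega)).prod (ihG (by omega) (by omega))).1.un
      (hMd _ (by omega))
    rw [← hV] at h1
    refine h1.mono (by omega) (step _ _ (by omega) (by omega)) ?_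
    rintro g ⟨z, u, hu, rfl⟩
    exact ⟨_, ⟨_, F.mem_sub_id A a z, _, G.mem_sub_id A a z, rfl⟩, u, hu, rfl⟩
  | bil b F G ihF ihG =>
    simp only [size] at hs
    simp only [reads] at h ⊢
    by_cases hF : F.reads A = 0
    · have h1 := ihG (by omega) (by omega)
      rw [hF, zero_add]
      refine h1.mono le_rfl le_rfl ?_
      rintro g ⟨z, u, hu, rfl⟩
      refine ⟨z, _, hu.comp (fun j e => ∑ a, b a e j * F.eval z a) (fun _ => 0), ?_⟩
      funext v
      simp only [eval]
      rw [F.eval_ovr A hF]
      congr 1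
      funext j
      rw [sum_comm, add_zero]
      refine sum_congr rfl fun e _ => ?_
      rw [sum_mul]
      exact sum_congr rfl fun a _ => by ring
    by_cases hG : G.reads A = 0
    · have h1 := ihF (by omega) (by omega)
      rw [hG, add_zero]
      refine h1.mono le_rfl le_rfl ?_
      rintro g ⟨z, u, hu, rfl⟩
      refine ⟨z, _, hu.comp (fun j a => ∑ e, b a e j * G.eval z e) (fun _ => 0), ?_⟩
      funext v
      simp only [eval]
      rw [G.eval_ovr A hG]
      congr 1
      funext j
      rw [add_zero]
      refine sum_congr rfl fun a _ => ?_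
      rw [sum_mul]
      exact sum_congr rfl fun e _ => by ring
    have r1 := F.reads_le_size A c hc
    have r2 := G.reads_le_size A c hc
    have h1 := (((ihF (by omega) (by omega)).prod (ihG (by omega) (by omega))).2 b).un
      (hMd _ (by omega))
    rw [← hV] at h1
    refine h1.mono (by omega) (step _ _ (by omega) (by omega)) ?_
    rintro g ⟨z, u, hu, rfl⟩
    exact ⟨_, ⟨_, F.mem_sub_id A a z, _, G.mem_sub_id A a z, rfl⟩, u, hu, rfl⟩
  | test l g F ih =>
    simp only [size] at hs
    simp only [reads] at h ⊢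
    refine (ih hs h).mono le_rfl le_rfl ?_
    rintro g' ⟨z, u, hu, rfl⟩
    exact ⟨z, _, Un.bool l (fun b => u (g b)), rfl⟩
  | sym k l H F ih =>
    simp only [size] at hs
    simp only [reads] at h ⊢
    have hsj : ∀ j, (F j).size c ≤ ∑ j, (F j).size c := fun j =>
      single_le_sum (f := fun j => (F j).size c) (fun _ _ => Nat.zero_le _) (mem_univ j)
    have hrj : ∀ j, (F j).reads A ≤ ∑ j, (F j).reads A := fun j =>
      single_le_sum (f := fun j => (F j).reads A) (fun _ _ => Nat.zero_le _) (mem_univ j)
    have hrs : ∑ j, (F j).reads A ≤ ∑ j, (F j).size c :=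
      sum_le_sum fun j _ => (F j).reads_le_size A c hc
    by_cases hA : ∃ j0, ∀ j, j ≠ j0 → (F j).reads A = 0
    · -- one live child
      obtain ⟨j0, hj0⟩ := hA
      have e : ∑ j, (F j).reads A = (F j0).reads A :=
        sum_eq_single j0 (fun j _ hj => hj0 j hj) (fun hj => absurd (mem_univ _) hj)
      rw [e] at h ⊢
      refine (ih j0 (by have := hsj j0; omega) h).mono le_rfl le_rfl ?_
      rintro g ⟨z, u, hu, rfl⟩
      refine ⟨z, _, Un.bool (l j0) (fun b => u (H ((univ.filter (fun j => j ≠ j0 ∧
        0 < ∑ i, l j i * (F j).eval z i)).card + if b then 1 else 0))), ?_⟩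
      funext v
      simp only [eval, decide_eq_true_eq]
      congr 2
      have e2 : univ.filter (fun j => 0 < ∑ i, l j i * (F j).eval (ovr A (a v) z) i) =
          univ.filter (fun j => j ≠ j0 ∧ 0 < ∑ i, l j i * (F j).eval z i) ∪
          (if 0 < ∑ i, l j0 i * (F j0).eval (ovr A (a v) z) i then {j0} else ∅) := by
        ext j
        rw [mem_filter, mem_union, mem_filter]
        by_cases hj : j = j0
        · subst hj
          split_ifs with h5 <;> simp [h5]
        · rw [(F j).eval_ovr A (hj0 j hj)]
          split_ifs <;> simp [hj]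
      rw [e2, card_union_of_disjoint]
      · congr 1
        split_ifs <;> simp
      · split_ifs
        · rw [disjoint_singleton_right]
          simp
        · simp
    · push Not at hA
      -- the Boolean functions of the children
      have hS : ∀ j, ∃ S : Finset (Y → Bool), S.card ≤ B ^ (2 * (F j).reads A - 1) ∧
          ∀ z, (fun v => decide ((F j).reads A ≠ 0 ∧
            0 < ∑ i, l j i * (F j).eval (ovr A (a v) z) i)) ∈ S := by
        intro j
        by_cases hj : (F j).reads A = 0
        · refine ⟨{fun _ => false}, ?_, fun z => ?_⟩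
          · rw [card_singleton]
            exact Nat.one_le_pow _ _ hB3
          · rw [mem_singleton]
            funext v
            simp [hj]
        · have := hsj j
          have := hrj j
          obtain ⟨S, hS1, hS2⟩ := (ih j (by omega) (by omega)).bool (l j) (by
            have h9 := hMd (3 * (F j).reads A - 1) (by omega)
            have h10 : 4 * Fintype.card Y * (3 * (F j).reads A - 1) ≤
              4 * Fintype.card Y * (3 * (F j).reads A - 1 + 1) := Nat.mul_le_mul_left _ (by omega)
            omega)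
          refine ⟨S, hS1, fun z => ?_⟩
          have h9 := hS2 _ ((F j).mem_sub_id A a z)
          have e : (fun v => decide ((F j).reads A ≠ 0 ∧
              0 < ∑ i, l j i * (F j).eval (ovr A (a v) z) i)) =
              fun v => decide (0 < ∑ i, l j i * (F j).eval (ovr A (a v) z) i) := by
            funext v
            rw [Bool.eq_iff_iff, decide_eq_true_iff, decide_eq_true_iff]
            simp [hj]
          rw [e]
          exact h9
      choose S hS1 hS2 using hS
      obtain ⟨f, hf⟩ : ∃ f : (Fin (k + 1) × ((j : Fin k) → {x : Y → Bool // x ∈ S j})) → Y →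
          Fin d → ℝ, ∀ (c : Fin (k + 1) × ((j : Fin k) → {x : Y → Bool // x ∈ S j})) (v : Y),
            f c v = H (c.1.val + (univ.filter (fun j : Fin k => (c.2 j).1 v = true)).card) :=
        ⟨fun c v => H (c.1.val + (univ.filter (fun j : Fin k => (c.2 j).1 v = true)).card),
          fun _ _ => rfl⟩
      have h1 := (cov_of_finite (M := M) f).un (hMd 0 (by omega))
      rw [← hV] at h1
      have hcard : 2 ≤ (univ.filter (fun j => (F j).reads A ≠ 0)).card := by
        obtain ⟨j1, hj1⟩ : ∃ j1, (F j1).reads A ≠ 0 := by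
          by_contra hc
          push Not at hc
          simp [hc] at h
        obtain ⟨j2, hj2, hj3⟩ := hA j1
        have : ({j1, j2} : Finset (Fin k)) ⊆ univ.filter (fun j => (F j).reads A ≠ 0) := by
          intro j hj
          rw [mem_insert, mem_singleton] at hj
          rw [mem_filter]
          rcases hj with rfl | rfl
          · exact ⟨mem_univ _, hj1⟩
          · exact ⟨mem_univ _, hj3⟩
        have h3 := card_le_card this
        rwa [card_pair hj2.symm] at h3
      have hsum : ∑ j, (2 * (F j).reads A - 1) + 2 ≤ 2 * ∑ j, (F j).reads A := by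
        have e3 : ∀ j, 2 * (F j).reads A - 1 + (if (F j).reads A ≠ 0 then 1 else 0) =
            2 * (F j).reads A := by
          intro j
          split_ifs with h5 <;> omega
        have e4 : ∑ j, (2 * (F j).reads A - 1) + (univ.filter (fun j => (F j).reads A ≠ 0)).card =
            2 * ∑ j, (F j).reads A := by
          rw [card_filter, ← sum_add_distrib, mul_sum]
          exact sum_congr rfl fun j _ => e3 j
        omega
      refine h1.mono (by omega) ?_ ?_
      · rw [Fintype.card_prod, Fintype.card_fin, Fintype.card_pi]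
        simp only [Fintype.card_coe]
        calc (k + 1) * (∏ j, (S j).card) * V
            ≤ M * (∏ j, B ^ (2 * (F j).reads A - 1)) * V := by
              apply Nat.mul_le_mul_right
              exact Nat.mul_le_mul (by omega) (prod_le_prod' fun j _ => hS1 j)
          _ = B ^ (∑ j, (2 * (F j).reads A - 1)) * (M * V) := by
              rw [prod_pow_eq_pow_sum]
              ring
          _ ≤ B ^ (∑ j, (2 * (F j).reads A - 1)) * B := Nat.mul_le_mul_left _ hB1
          _ = B ^ (∑ j, (2 * (F j).reads A - 1) + 1) := by rw [pow_succ]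
          _ ≤ B ^ (2 * ∑ j, (F j).reads A - 1) := Nat.pow_le_pow_right hB3 (by omega)
      · rintro g ⟨z, u, hu, rfl⟩
        refine ⟨fun v => (sym k l H F).eval (ovr A (a v) z), ?_, u, hu, rfl⟩
        refine ⟨(⟨(univ.filter (fun j => (F j).reads A = 0 ∧
          0 < ∑ i, l j i * (F j).eval z i)).card, ?_⟩, fun j => ⟨_, hS2 j z⟩), ?_⟩
        · have := card_filter_le (univ : Finset (Fin k))
            (fun j => (F j).reads A = 0 ∧ 0 < ∑ i, l j i * (F j).eval z i)
          rw [card_univ, Fintype.card_fin] at this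
          omega
        · funext v
          rw [hf]
          simp only [eval, decide_eq_true_eq]
          congr 1
          have e2 : univ.filter (fun j => 0 < ∑ i, l j i * (F j).eval (ovr A (a v) z) i) =
              univ.filter (fun j => (F j).reads A = 0 ∧ 0 < ∑ i, l j i * (F j).eval z i) ∪
              univ.filter (fun j => (F j).reads A ≠ 0 ∧
                0 < ∑ i, l j i * (F j).eval (ovr A (a v) z) i) := by
            ext j
            rw [mem_filter, mem_union, mem_filter, mem_filter]
            by_cases hj : (F j).reads A = 0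
            · rw [(F j).eval_ovr A hj]
              simp [hj]
            · simp [hj]
          rw [e2, card_union_of_disjoint]
          rw [disjoint_filter]
          rintro j - ⟨h5, -⟩ ⟨h6, -⟩
          exact h6 h5

open Classical in
/-- Few subfunctions. -/
theorem subfunctions {Y : Type} [Fintype Y] (A : Set ι) (a : Y → ∀ i, D i) (c : ι → ℕ)
    (hc : ∀ j ∈ A, 1 ≤ c j) (s M B : ℕ) (hq : 1 ≤ q)
    (hM : 4 * Fintype.card Y * (3 * s + 1) + 2 + s ≤ M)
    (hB : B = 2 * M ^ (d ^ 2 + 4 * d + 2) * q ^ (w - 1)) (F : Fml ι D w q d)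
    (hs : F.size c ≤ s) :
    ∃ S : Finset (Y → Bool), S.card ≤ 2 * B ^ (2 * F.reads A) ∧
      ∀ z : (∀ i, D i), (fun v => F.accepts (ovr A (a v) z)) ∈ S := by
  obtain ⟨hB1, hB2, hB3⟩ := base_bound (M := M) (B := B) (q := q) (w := w) (d := d)
    (by omega) hq hB
  by_cases h : F.reads A = 0
  · refine ⟨(univ : Finset Bool).image (fun c => fun _ => c), ?_, fun z => ?_⟩
    · refine card_image_le.trans ?_
      simp [h]
    · rw [mem_image]
      refine ⟨F.accepts z, mem_univ _, ?_⟩
      funext v
      unfold accepts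
      rw [F.eval_ovr A h]
  · have hr := F.reads_le_size A c hc
    obtain ⟨S, h1, h2⟩ := (F.cov A a c hc s M B hq hM hB hs (by omega)).bool (fun _ => 1) (by
      have : 4 * Fintype.card Y * (3 * F.reads A - 1) ≤ 4 * Fintype.card Y * (3 * s + 1) :=
        Nat.mul_le_mul_left _ (by omega)
      omega)
    refine ⟨S, h1.trans ?_, fun z => ?_⟩
    · calc B ^ (2 * F.reads A - 1) ≤ B ^ (2 * F.reads A) :=
          Nat.pow_le_pow_right hB3 (by omega)
        _ ≤ 2 * B ^ (2 * F.reads A) := by omega
    · have h9 := h2 _ (F.mem_sub_id A a z)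
      simp only [one_mul] at h9
      exact h9

end Fml

end Pool.Agent.N452.TF
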