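import Pool.Agent.N452.TF.Conv

set_option autoImplicit false

/-! # Sums of formulas, blocks, and circuits with one formula -/

namespace Pool.Agent.N452.TF

open Finset

variable {ι : Type} {D : ι → Type} {w q d : ℕ}

/-- sums -/
theorem exists_sum {κ : Type} (s : Finset κ) (G : κ → Fml ι D w q d) :
    ∃ F : Fml ι D w q d, (∀ x j, F.eval x j = ∑ p ∈ s, (G p).eval x j) ∧
      ∀ c, F.size c = ∑ p ∈ s, (G p).size c := by
  classical
  induction s using Finset.induction_on with
  | empty =>
    refine ⟨.const (fun _ => 0), fun x j => ?_, fun c => ?_⟩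
    · simp [Fml.eval]
    · simp [Fml.size]
  | insert p s hp ih =>
    obtain ⟨F, h1, h2⟩ := ih
    refine ⟨.add (G p) F, fun x j => ?_, fun c => ?_⟩
    · rw [sum_insert hp]
      simp only [Fml.eval, h1]
    · rw [sum_insert hp]
      simp only [Fml.size, h2]

open Classical in
theorem price_nil (I : Finset ι) (i : ι) :
    (Circ.nil : Circ ι D w q d 0).price I (Sum.inl i) = if i ∈ I then 1 else 0 := by
  unfold Circ.price
  have h : I.filter (fun k => Sum.inl i ∈ (Circ.nil : Circ ι D w q d 0).Dep k) =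
      if i ∈ I then {i} else ∅ := by
    ext k
    rw [mem_filter]
    have h2 : Sum.inl i ∈ (Circ.nil : Circ ι D w q d 0).Dep k ↔ i = k := by
      constructor
      · intro h
        exact Sum.inl.inj h
      · rintro rfl
        exact rfl
    rw [h2]
    split_ifs with h3
    · rw [mem_singleton]
      constructor
      · rintro ⟨-, rfl⟩
        rfl
      · rintro rfl
        exact ⟨h3, rfl⟩
    · constructor
      · rintro ⟨h4, rfl⟩
        exact absurd h4 h3
      · intro h4
        exact absurd h4 (notMem_empty _)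
  rw [h]
  split_ifs <;> simp

/-- A circuit without shared bits which consists of one formula. -/
theorem exists_circuit_of_fml (F : Fml (ι ⊕ Fin 0) (Ext D 0) w q d) (I : Finset ι) :
    ∃ C : Circuit ι D w q d, C.bits = 0 ∧
      C.circ.cost I = F.size ((Circ.nil : Circ ι D w q d 0).price I) + 1 ∧
      ∀ x, C.eval x = F.accepts (ext x ((Circ.nil : Circ ι D w q d 0).val x)) := by
  refine ⟨⟨0, Circ.snoc Circ.nil ⟨1, BP.node BP.sinks F 0 1, Fin.last _⟩⟩, rfl, ?_, fun x => ?_⟩
  · simp only [Circ.cost, BP.size, zero_add]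
  · unfold Circuit.eval
    simp only [Circ.val, Fin.lastCases_last, Program.eval, BP.val]
    cases F.accepts (ext x ((Circ.nil : Circ ι D w q d 0).val x)) <;> simp

/-- cutting a range into blocks of length `d` -/
theorem sum_blocks {n d : ℕ} (hd : 1 ≤ d) (g : ℕ → ℝ) (hg : ∀ k, n ≤ k → g k = 0) :
    ∑ a : Fin (n / d + 1), ∑ t : Fin d, g (t.val + d * a.val) = ∑ k : Fin n, g k := by
  have h2 : ∑ a : Fin (n / d + 1), ∑ t : Fin d, g (t.val + d * a.val) =
      ∑ k : Fin ((n / d + 1) * d), g k.val := by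
    rw [← Fintype.sum_prod_type' (f := fun (a : Fin (n / d + 1)) (t : Fin d) =>
      g (t.val + d * a.val))]
    rw [← Equiv.sum_comp finProdFinEquiv (fun k : Fin ((n / d + 1) * d) => g k.val)]
    rfl
  have h3 : n ≤ (n / d + 1) * d := by
    have h4 := Nat.lt_succ_iff.1 (Nat.lt_succ_of_lt (Nat.lt_mul_div_succ n hd))
    calc n ≤ d * (n / d + 1) := h4
      _ = (n / d + 1) * d := mul_comm _ _
  rw [h2, Fin.sum_univ_eq_sum_range, Fin.sum_univ_eq_sum_range]
  symm
  apply sum_subset
  · intro k hk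
    rw [mem_range] at hk ⊢
    omega
  · intro k _ hk
    rw [mem_range] at hk
    exact hg k (by omega)

theorem sum_blocks₂ {n d : ℕ} (hd : 1 ≤ d) (g : ℕ → ℕ → ℝ)
    (hg : ∀ k j, n ≤ k ∨ n ≤ j → g k j = 0) :
    ∑ a : Fin (n / d + 1), ∑ c : Fin (n / d + 1), ∑ t : Fin d, ∑ t' : Fin d,
      g (t'.val + d * a.val) (t.val + d * c.val) = ∑ k : Fin n, ∑ j : Fin n, g k j := by
  have h1 : ∀ a : Fin (n / d + 1), ∑ c : Fin (n / d + 1), ∑ t : Fin d, ∑ t' : Fin d,
      g (t'.val + d * a.val) (t.val + d * c.val) =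
      ∑ j : Fin n, ∑ t' : Fin d, g (t'.val + d * a.val) j := fun a =>
    sum_blocks hd (fun j => ∑ t' : Fin d, g (t'.val + d * a.val) j)
      (fun j hj => sum_eq_zero fun t' _ => hg _ _ (Or.inr hj))
  rw [sum_congr rfl (fun a _ => h1 a), sum_comm, sum_comm (s := univ) (t := univ) (f := fun
    (k : Fin n) (j : Fin n) => g k j)]
  refine sum_congr rfl fun j _ => ?_
  exact sum_blocks hd (fun k => g k j) (fun k hk => hg _ _ (Or.inl hk))

end Pool.Agent.N452.TF
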