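import Pool.Agent.N452.TF.Prog
import Pool.Agent.Y638.RF.Prog

set_option autoImplicit false

/-! # Branching programs which test real formulas, and products of matrices, as circuits -/

namespace Pool.Agent.N452.TF

open Finset
open Pool.Agent.Y638

variable {ι : Type} {D : ι → Type} {w q : ℕ}

/-- a real formula as a formula of vectors of dimension one -/
def ofFml : RF.Fml ι D w q → Fml (ι ⊕ Fin 0) (Ext D 0) w q 1
  | .const c => .const (fun _ => c)
  | .item i f => .leaf (.item (Sum.inl i) (fun x _ => f x))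
  | .word τ => .leaf (.word ⟨fun k => Sum.inl (τ.item k), fun k => τ.view k, fun e _ => τ.out e⟩)
  | .add F G => .add (ofFml F) (ofFml G)
  | .mul F G => .bil (fun _ _ _ => 1) (ofFml F) (ofFml G)
  | .pos F => .test (fun _ => 1) (fun b _ => if b then 1 else 0) (ofFml F)
  | .sym k h F => .sym k (fun _ _ => 1) (fun n _ => h n) (fun j => ofFml (F j))

theorem ofFml_eval (x : ∀ i, D i) (b : Fin 0 → Bool) (F : RF.Fml ι D w q) :
    (ofFml F).eval (ext x b) = fun _ => F.eval x := by
  induction F with
  | const c => rfl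
  | item i f => rfl
  | word τ => rfl
  | add F G ihF ihG =>
    funext j
    simp only [ofFml, Fml.eval, RF.Fml.eval, ihF, ihG]
  | mul F G ihF ihG =>
    funext j
    simp only [ofFml, Fml.eval, RF.Fml.eval, ihF, ihG]
    simp
  | pos F ih =>
    funext j
    simp only [ofFml, Fml.eval, RF.Fml.eval, ih]
    simp
  | sym k h F ih =>
    funext j
    simp only [ofFml, Fml.eval, RF.Fml.eval, ih]
    simp

theorem ofFml_accepts (x : ∀ i, D i) (b : Fin 0 → Bool) (F : RF.Fml ι D w q) :
    (ofFml F).accepts (ext x b) = F.accepts x := by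
  unfold Fml.accepts RF.Fml.accepts
  rw [ofFml_eval]
  simp

theorem ofFml_size (c : ι ⊕ Fin 0 → ℕ) (hc : ∀ a, c a ≤ 1) (hw : 1 ≤ w) (F : RF.Fml ι D w q) :
    (ofFml F).size c ≤ w * F.size := by
  induction F with
  | const c => simp [ofFml, Fml.size, RF.Fml.size]
  | item i f =>
    simp only [ofFml, Fml.size, Leaf.size, RF.Fml.size]
    have := hc (Sum.inl i)
    omega
  | word τ =>
    simp only [ofFml, Fml.size, Leaf.size, RF.Fml.size]
    calc ∑ k, c (Sum.inl (τ.item k)) ≤ ∑ _k : Fin w, 1 := sum_le_sum fun k _ => hc _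
      _ = w * 1 := by simp
  | add F G ihF ihG =>
    simp only [ofFml, Fml.size, RF.Fml.size]
    rw [mul_add]
    omega
  | mul F G ihF ihG =>
    simp only [ofFml, Fml.size, RF.Fml.size]
    rw [mul_add]
    omega
  | pos F ih => exact ih
  | sym k h F ih =>
    simp only [ofFml, Fml.size, RF.Fml.size]
    rw [mul_add, mul_sum]
    have h1 : ∑ j, (ofFml (F j)).size c ≤ ∑ j, w * (F j).size := sum_le_sum fun j _ => ih j
    have h2 : k ≤ w * k := Nat.le_mul_of_pos_left _ (by omega)
    omega

/-- a branching program which tests real formulas -/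
def ofBP : {n : ℕ} → RF.BP ι D w q n → BP (ι ⊕ Fin 0) (Ext D 0) w q 1 n
  | _, .sinks => .sinks
  | _, .node B F no yes => .node (ofBP B) (ofFml F) no yes

theorem ofBP_val (x : ∀ i, D i) (b : Fin 0 → Bool) : ∀ {n : ℕ} (B : RF.BP ι D w q n)
    (v : Fin (n + 2)), (ofBP B).val (ext x b) v = B.val x v
  | _, .sinks, v => rfl
  | _, .node B F no yes, v => by
      have h := ofBP_val x b B
      refine Fin.lastCases ?_ (fun u => ?_) v
      · simp only [ofBP, BP.val, RF.BP.val, Fin.lastCases_last, h, ofFml_accepts]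
      · simp only [ofBP, BP.val, RF.BP.val, Fin.lastCases_castSucc, h]

theorem ofBP_size (c : ι ⊕ Fin 0 → ℕ) (hc : ∀ a, c a ≤ 1) (hw : 1 ≤ w) : ∀ {n : ℕ}
    (B : RF.BP ι D w q n), (ofBP B).size c ≤ w * B.size
  | _, .sinks => by simp [ofBP, BP.size]
  | _, .node B F no yes => by
      have h := ofBP_size c hc hw B
      have h2 := ofFml_size c hc hw F
      simp only [ofBP, BP.size, RF.BP.size]
      rw [mul_add, mul_add]
      omega

theorem price_nil_le [DecidableEq ι] (I : Finset ι) (a : ι ⊕ Fin 0) :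
    (Circ.nil : Circ ι D w q 1 0).price I a ≤ 1 := by
  classical
  unfold Circ.price
  rw [card_le_one]
  intro i hi j hj
  rw [mem_filter] at hi hj
  have h1 : a = Sum.inl i := hi.2
  have h2 : a = Sum.inl j := hj.2
  exact Sum.inl.inj (h1.symm.trans h2)

/-- A branching program of size `s` which tests real formulas is a circuit without shared bits, of
dimension one and of cost at most `w s`. -/
theorem exists_circuit [DecidableEq ι] (hw : 1 ≤ w) {s : ℕ} (B : RF.Program ι D w q s)
    (I : Finset ι) : ∃ C : Circuit ι D w q 1, C.bits = 0 ∧ C.circ.cost I ≤ w * s ∧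
      ∀ x, C.eval x = B.eval x := by
  refine ⟨⟨0, Circ.snoc Circ.nil ⟨B.nodes, ofBP B.bp, B.start⟩⟩, rfl, ?_, fun x => ?_⟩
  · simp only [Circ.cost, zero_add]
    exact (ofBP_size _ (price_nil_le I) hw B.bp).trans (Nat.mul_le_mul_left _ B.size_le)
  · unfold Circuit.eval
    have h : (Circ.snoc Circ.nil ⟨B.nodes, ofBP B.bp, B.start⟩ : Circ ι D w q 1 1).val x
        (Fin.last 0) = (ofBP B.bp).val (ext x ((Circ.nil : Circ ι D w q 1 0).val x)) B.start := by
      simp only [Circ.val, Fin.lastCases_last]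
      rfl
    rw [h, ofBP_val]
    rfl

end Pool.Agent.N452.TF
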