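import Pool.Agent.N452.TF.Arith
import Pool.Agent.N452.TF.Conv
import Pool.Agent.Y638.RF.Xor

set_option autoImplicit false

/-! # Products `u_iᵀ M v_i` over `ZMod 2` -/

namespace Pool.Agent.N452.TF.Xor

open Finset Pool.Agent.TH697.Form Pool.Agent.TH697.Row
open Pool.Agent.Y638.RF.Xor (Item product asks)

variable {n c w d : ℕ}

/-- The pairs of vectors. -/
def pairs (n : ℕ) : Finset (Option (Fin n)) := (univ : Finset (Fin n)).map Function.Embedding.some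

theorem bound (hn : 32 ≤ n) (hc : 1 ≤ c) (hw : 1 ≤ w) (hd : 1 ≤ d) {Ω : Type} [Fintype Ω]
    (μ : Ω → ℝ) (hμ : IsProb μ) (s : ℕ) (C : Ω → Circuit (Option (Fin n)) (Item n) w (2 ^ c) d)
    (hs : ∀ ω, (C ω).circ.cost (pairs n) ≤ s)
    (hF : ApproximatesOn μ (fun ω => (C ω).eval) (fun _ => True) (product n)) :
    (n : ℝ) ^ 3 ≤ 1400 * (w * c + (d : ℝ) ^ 2 * Real.logb 2 n) * s := by
  classical
  have hw' : (1 : ℝ) ≤ w := by exact_mod_cast hw
  have hc' : (1 : ℝ) ≤ c := by exact_mod_cast hc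
  have hd' : (1 : ℝ) ≤ d := by exact_mod_cast hd
  have hs0 : (0 : ℝ) ≤ s := Nat.cast_nonneg s
  have hn' : (32 : ℝ) ≤ n := by exact_mod_cast hn
  have hl : 0 ≤ Real.logb 2 (n : ℝ) := Real.logb_nonneg (by norm_num) (by linarith)
  have hX : (1 : ℝ) ≤ w * c + (d : ℝ) ^ 2 * Real.logb 2 n := by
    have h1 : (1 : ℝ) ≤ w * c := by nlinarith
    have h2 : (0 : ℝ) ≤ (d : ℝ) ^ 2 * Real.logb 2 n := by positivity
    linarith
  obtain ⟨X, hX'⟩ : ∃ X, X = w * c + (d : ℝ) ^ 2 * Real.logb 2 n := ⟨_, rfl⟩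
  by_cases hsn : n ^ 3 ≤ s
  · have h1 : (n : ℝ) ^ 3 ≤ s := by exact_mod_cast hsn
    rw [← hX'] at hX ⊢
    nlinarith
  have hM : 4 * n ^ 2 * (3 * s + 1) + 2 + s ≤ n ^ 6 := by
    have h1 : s < n ^ 3 := by omega
    have h2 : 4 * n ^ 2 * (3 * s + 1) ≤ 4 * n ^ 2 * (3 * n ^ 3) := Nat.mul_le_mul_left _ (by omega)
    have h3 : 4 * n ^ 2 * (3 * n ^ 3) = 12 * n ^ 5 := by ring
    have h4 : n ^ 3 ≤ n ^ 5 := Nat.pow_le_pow_right (by omega) (by norm_num)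
    have h5 : 32 * n ^ 5 ≤ n ^ 6 := by
      calc 32 * n ^ 5 ≤ n * n ^ 5 := Nat.mul_le_mul_right _ hn
        _ = n ^ 6 := by ring
    have h6 : 1 ≤ n ^ 5 := Nat.one_le_pow _ _ (by omega)
    omega
  have h := circuit_bound μ hμ s C (fun _ => True) (product n) hF (n := n) (by omega)
    hw hd (n ^ 2) hM 0 (pairs n) hs (T := Fin n × Fin n) (by
      intro a ha
      unfold pairs at ha
      rw [mem_map] at ha
      obtain ⟨i, -, rfl⟩ := ha
      exact asks i)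
  unfold pairs at h
  rw [card_map, card_univ, Fintype.card_fin, Pool.Agent.TH457.Ary.OuMv.card_T] at h
  have h2 := mul_sub_one_le (a := (n : ℝ)) (b := (n : ℝ) ^ 2) (by nlinarith) (by linarith)
  rw [← hX'] at h hX ⊢
  have h3 : 0 ≤ X * s := mul_nonneg (by linarith) hs0
  have h4 : (n : ℝ) * (n : ℝ) ^ 2 = (n : ℝ) ^ 3 := by ring
  rw [h4] at h2
  nlinarith

/-- multiplication by words of length `c` -/
theorem upper (hc : 1 ≤ c) : ∃ C : Circuit (Option (Fin n)) (Item n) 2 (2 ^ (c + 1)) 1,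
    C.bits = 0 ∧ C.circ.cost (pairs n) ≤ 4 * n ^ 2 * (n / c + 1) + 2 ∧
      ∀ x, C.eval x = product n x := by
  obtain ⟨F, h1, h2⟩ := Pool.Agent.Y638.RF.Xor.upper (n := n) hc
  obtain ⟨B, h3, h4⟩ := Pool.Agent.Y638.RF.exists_program F (2 * n ^ 2 * (n / c + 1) + 1)
    (by omega)
  obtain ⟨C, h5, h6, h7⟩ := exists_circuit (by norm_num) B (pairs n)
  refine ⟨C, h5, h6.trans (le_of_eq (by ring)), fun x => ?_⟩
  rw [h7, h4, h2]

end Pool.Agent.N452.TF.Xor
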