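import Pool.Agent.N452.TF.Lower
import Pool.Agent.TH457.Ary.OuMv

set_option autoImplicit false

/-! # Arithmetic for the applications -/

namespace Pool.Agent.N452.TF

open Finset Pool.Agent.TH697.Form Pool.Agent.TH697.Row Pool.Agent.Y638.RF

variable {ι : Type} {D : ι → Type} [DecidableEq ι] {w c d n : ℕ}

variable {T : Type} [Fintype T] {Ω : Type} [Fintype Ω]

/-- The lower bound in a simpler form: words of `c` bits, and `M = n ^ 6`. -/
theorem circuit_bound (μ : Ω → ℝ) (hμ : IsProb μ) (s : ℕ) (C : Ω → Circuit ι D w (2 ^ c) d)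
    (P : (∀ i, D i) → Prop) (f : (∀ i, D i) → Bool)
    (hF : ApproximatesOn μ (fun ω => (C ω).eval) P f)
    (hn : 2 ≤ n) (hw : 1 ≤ w) (hd : 1 ≤ d) (K : ℕ)
    (hM : 4 * K * (3 * s + 1) + 2 + s ≤ n ^ 6) (δ : ℝ)
    (I : Finset ι) (hs : ∀ ω, (C ω).circ.cost I ≤ s) (h : ∀ i ∈ I, Asks T K δ P f i) :
    (I.card : ℝ) * ((49 / 600 - δ) * Fintype.card T - 1) ≤
      105 * (w * c + (d : ℝ) ^ 2 * Real.logb 2 n) * s := by
  have h1 := circuit_lower μ hμ s C P f hF Nat.one_le_two_pow hw K (n ^ 6) hM δ I hs h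
  refine h1.trans ?_
  apply mul_le_mul_of_nonneg_right _ (Nat.cast_nonneg s)
  push_cast
  rw [Pool.Agent.TH457.Ary.OuMv.logb_two_pow', Real.logb_pow]
  have hl : (1 : ℝ) ≤ Real.logb 2 n := by
    rw [Real.le_logb_iff_rpow_le (by norm_num) (by positivity)]
    rw [Real.rpow_one]
    exact_mod_cast hn
  have hd' : (1 : ℝ) ≤ d := by exact_mod_cast hd
  have hc' : (0 : ℝ) ≤ c := Nat.cast_nonneg c
  have hw' : (1 : ℝ) ≤ w := by exact_mod_cast hw
  have h2 : 2 * (d : ℝ) ^ 2 + 8 * d + 7 ≤ 17 * (d : ℝ) ^ 2 := by nlinarith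
  have h3 : (1 : ℝ) ≤ (d : ℝ) ^ 2 := by nlinarith
  have h4 : (1 : ℝ) ≤ (d : ℝ) ^ 2 * Real.logb 2 n := by nlinarith
  have h5 : (2 * (d : ℝ) ^ 2 + 8 * d + 7) * ((6 : ℕ) * Real.logb 2 n) ≤
      17 * (d : ℝ) ^ 2 * (6 * Real.logb 2 n) := by
    push_cast
    apply mul_le_mul_of_nonneg_right h2
    linarith
  have h6 : 2 * ((w : ℝ) - 1) * c ≤ 105 * (w * c) := by nlinarith [mul_nonneg (by linarith : (0 : ℝ) ≤ w) hc']
  push_cast at h5 ⊢
  nlinarith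

theorem mul_sub_one_le {a b : ℝ} (hb : 1024 ≤ b) (ha : 0 ≤ a) :
    2 / 25 * (a * b) ≤ a * ((49 / 600 - 0) * b - 1) := by
  have : 2 / 25 * b ≤ (49 / 600 - 0) * b - 1 := by linarith
  calc 2 / 25 * (a * b) = a * (2 / 25 * b) := by ring
    _ ≤ _ := mul_le_mul_of_nonneg_left this ha

end Pool.Agent.N452.TF
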