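import Pool.Agent.N452.TF.Defs
import Pool.Agent.Helper448.Warren

set_option autoImplicit false

/-! # Families of vector valued functions which are given by few polynomials -/

namespace Pool.Agent.N452.TF

open Finset MvPolynomial

variable {d : ℕ}

/-- affine maps, and functions of the sign of an affine form -/
def Un (u : (Fin d → ℝ) → Fin d → ℝ) : Prop :=
  (∃ (A : Fin d → Fin d → ℝ) (b : Fin d → ℝ), u = fun x j => ∑ a, A j a * x a + b j) ∨
    ∃ (h : Bool → Fin d → ℝ) (c : Fin d → ℝ) (e : ℝ),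
      u = fun x => h (decide (0 < ∑ a, c a * x a + e))

theorem Un.id : Un (d := d) id := by
  refine Or.inl ⟨fun j a => if j = a then 1 else 0, fun _ => 0, ?_⟩
  funext x j
  simp

theorem Un.comp {u : (Fin d → ℝ) → Fin d → ℝ} (h : Un u) (A : Fin d → Fin d → ℝ)
    (b : Fin d → ℝ) : Un (fun x => u (fun j => ∑ a, A j a * x a + b j)) := by
  rcases h with ⟨A', b', rfl⟩ | ⟨h, c, e, rfl⟩
  · refine Or.inl ⟨fun j a => ∑ k, A' j k * A k a, fun j => ∑ k, A' j k * b k + b' j, ?_⟩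
    funext x j
    simp only [mul_add, sum_add_distrib, mul_sum, sum_mul]
    rw [sum_comm]
    simp only [mul_assoc]
    ring
  · refine Or.inr ⟨h, fun a => ∑ k, c k * A k a, ∑ k, c k * b k + e, ?_⟩
    funext x
    have : ∑ k, c k * (∑ a, A k a * x a + b k) + e =
        ∑ a, (∑ k, c k * A k a) * x a + (∑ k, c k * b k + e) := by
      simp only [mul_add, sum_add_distrib, mul_sum, sum_mul]
      rw [sum_comm]
      simp only [mul_assoc]
      ring
    simp only [this]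

theorem Un.bool (l : Fin d → ℝ) (φ : Bool → Fin d → ℝ) :
    Un (fun x => φ (decide (0 < ∑ a, l a * x a))) := by
  refine Or.inr ⟨φ, l, 0, ?_⟩
  simp only [add_zero]

/-- A family of vector valued functions which are given by polynomials in finitely many
parameters. -/
structure Fam (Y : Type) (d : ℕ) where
  σ : Type
  inst : Fintype σ
  P : Y → Fin d → MvPolynomial σ ℝ

instance {Y : Type} (F : Fam Y d) : Fintype F.σ := F.inst

variable {Y : Type} {M D D' W W' : ℕ} {𝒢 𝒢' : Set (Y → Fin d → ℝ)}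

/-- The functions in `𝒢` are given by finitely many families of polynomials of degree at most `D`;
a family with `p` parameters is counted with the weight `M ^ p`. -/
def Cov (M D W : ℕ) (𝒢 : Set (Y → Fin d → ℝ)) : Prop :=
  ∃ (κ : Type) (_ : Fintype κ) (F : κ → Fam Y d),
    (∀ k v j, ((F k).P v j).totalDegree ≤ D) ∧ (∑ k, M ^ Fintype.card (F k).σ ≤ W) ∧
    ∀ g ∈ 𝒢, ∃ (k : κ) (θ : (F k).σ → ℝ), ∀ v j, g v j = eval θ ((F k).P v j)

theorem Cov.mono (h : Cov M D W 𝒢) (hd : D ≤ D') (hW : W ≤ W') (hG : 𝒢' ⊆ 𝒢) :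
    Cov M D' W' 𝒢' := by
  obtain ⟨κ, _, F, h1, h2, h3⟩ := h
  exact ⟨κ, _, F, fun k v j => (h1 k v j).trans hd, h2.trans hW, fun g hg => h3 g (hG hg)⟩

theorem cov_of_finite {κ : Type} [Fintype κ] (f : κ → Y → Fin d → ℝ) :
    Cov M 0 (Fintype.card κ) (Set.range f) := by
  refine ⟨κ, inferInstance, fun k => ⟨Empty, inferInstance, fun v j => C (f k v j)⟩,
    fun k v j => ?_, ?_, ?_⟩
  · simp
  · simp only [Fintype.card_empty, pow_zero, sum_const, card_univ, smul_eq_mul, mul_one]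
    exact le_rfl
  · rintro g ⟨k, rfl⟩
    exact ⟨k, fun e => e.elim, fun v j => by simp⟩

/-- constant functions -/
theorem cov_const : Cov M 1 (M ^ d) {g : Y → Fin d → ℝ | ∃ θ : Fin d → ℝ, g = fun _ => θ} := by
  refine ⟨Unit, inferInstance, fun _ => ⟨Fin d, inferInstance, fun _ j => X j⟩,
    fun k v j => ?_, ?_, ?_⟩
  · simp only
    rw [totalDegree_X]
  · simp only [sum_const, card_univ, smul_eq_mul, Fintype.card_unit, one_mul]
    rw [show Fintype.card (Fin d) = d from Fintype.card_fin d]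
  · rintro g ⟨θ, rfl⟩
    exact ⟨(), θ, fun v j => by simp⟩

/-- matrices from a finite family which are applied to the functions of a family -/
theorem Cov.act {κ : Type} [Fintype κ] (f : κ → Y → Fin d → Fin d → ℝ) (h : Cov M D W 𝒢) :
    Cov M D (Fintype.card κ * W)
      {g' | ∃ k, ∃ g ∈ 𝒢, g' = fun v j => ∑ a, f k v j a * g v a} := by
  obtain ⟨κ', _, F, h1, h2, h3⟩ := h
  refine ⟨κ × κ', inferInstance, fun k => ⟨(F k.2).σ, inferInstance,
    fun v j => ∑ a, C (f k.1 v j a) * (F k.2).P v a⟩, fun k v j => ?_, ?_, ?_⟩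
  · refine (totalDegree_finsetSum _ _).trans (Finset.sup_le fun a _ => ?_)
    refine (totalDegree_mul _ _).trans ?_
    rw [totalDegree_C, zero_add]
    exact h1 _ _ _
  · rw [Fintype.sum_prod_type]
    calc ∑ _x : κ, ∑ k, M ^ Fintype.card (F k).σ
        = Fintype.card κ * ∑ k, M ^ Fintype.card (F k).σ := by
          rw [Finset.sum_const, Finset.card_univ, smul_eq_mul]
      _ ≤ _ := Nat.mul_le_mul_left _ h2
  · rintro g' ⟨k, g, hg, rfl⟩
    obtain ⟨k', θ, hk⟩ := h3 g hg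
    refine ⟨(k, k'), θ, fun v j => ?_⟩
    simp only [map_sum, map_mul, eval_C, hk]

/-- sums and bilinear maps -/
theorem Cov.prod {D₁ D₂ W₁ W₂ : ℕ} {𝒢₁ 𝒢₂ : Set (Y → Fin d → ℝ)} (h₁ : Cov M D₁ W₁ 𝒢₁)
    (h₂ : Cov M D₂ W₂ 𝒢₂) :
    Cov M (D₁ + D₂) (W₁ * W₂) {g | ∃ g₁ ∈ 𝒢₁, ∃ g₂ ∈ 𝒢₂, g = fun v j => g₁ v j + g₂ v j} ∧
    ∀ b : Fin d → Fin d → Fin d → ℝ, Cov M (D₁ + D₂) (W₁ * W₂) {g | ∃ g₁ ∈ 𝒢₁, ∃ g₂ ∈ 𝒢₂,
      g = fun v j => ∑ a, ∑ e, b a e j * (g₁ v a * g₂ v e)} := by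
  obtain ⟨κ₁, _, F₁, a1, a2, a3⟩ := h₁
  obtain ⟨κ₂, _, F₂, b1, b2, b3⟩ := h₂
  have hsum : ∑ k : κ₁ × κ₂, M ^ (Fintype.card ((F₁ k.1).σ ⊕ (F₂ k.2).σ)) ≤ W₁ * W₂ := by
    rw [Fintype.sum_prod_type]
    calc ∑ x : κ₁, ∑ y : κ₂, M ^ (Fintype.card ((F₁ x).σ ⊕ (F₂ y).σ))
        = (∑ x : κ₁, M ^ Fintype.card (F₁ x).σ) * ∑ y : κ₂, M ^ Fintype.card (F₂ y).σ := by
          rw [sum_mul]
          refine sum_congr rfl fun x _ => ?_
          rw [mul_sum]
          exact sum_congr rfl fun y _ => by rw [Fintype.card_sum, pow_add]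
      _ ≤ W₁ * W₂ := Nat.mul_le_mul a2 b2
  have e1 : ∀ (k : κ₁ × κ₂) (θ₁ : (F₁ k.1).σ → ℝ) (θ₂ : (F₂ k.2).σ → ℝ) (v : Y) (j : Fin d),
      eval (Sum.elim θ₁ θ₂) (rename Sum.inl ((F₁ k.1).P v j)) = eval θ₁ ((F₁ k.1).P v j) := by
    intro k θ₁ θ₂ v j
    rw [eval_rename, Sum.elim_comp_inl]
  have e2 : ∀ (k : κ₁ × κ₂) (θ₁ : (F₁ k.1).σ → ℝ) (θ₂ : (F₂ k.2).σ → ℝ) (v : Y) (j : Fin d),
      eval (Sum.elim θ₁ θ₂) (rename Sum.inr ((F₂ k.2).P v j)) = eval θ₂ ((F₂ k.2).P v j) := by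
    intro k θ₁ θ₂ v j
    rw [eval_rename, Sum.elim_comp_inr]
  have d1 : ∀ (k : κ₁ × κ₂) (v : Y) (j : Fin d),
      (rename (Sum.inl : _ → (F₁ k.1).σ ⊕ (F₂ k.2).σ) ((F₁ k.1).P v j)).totalDegree ≤ D₁ :=
    fun k v j => (totalDegree_rename_le _ _).trans (a1 _ _ _)
  have d2 : ∀ (k : κ₁ × κ₂) (v : Y) (j : Fin d),
      (rename (Sum.inr : _ → (F₁ k.1).σ ⊕ (F₂ k.2).σ) ((F₂ k.2).P v j)).totalDegree ≤ D₂ :=
    fun k v j => (totalDegree_rename_le _ _).trans (b1 _ _ _)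
  constructor
  · refine ⟨κ₁ × κ₂, inferInstance, fun k => ⟨(F₁ k.1).σ ⊕ (F₂ k.2).σ, inferInstance,
      fun v j => rename Sum.inl ((F₁ k.1).P v j) + rename Sum.inr ((F₂ k.2).P v j)⟩,
      fun k v j => ?_, hsum, ?_⟩
    · refine (totalDegree_add _ _).trans (max_le ?_ ?_)
      · exact (d1 k v j).trans (by omega)
      · exact (d2 k v j).trans (by omega)
    · rintro g ⟨g₁, hg₁, g₂, hg₂, rfl⟩
      obtain ⟨k₁, θ₁, h1⟩ := a3 g₁ hg₁
      obtain ⟨k₂, θ₂, h2⟩ := b3 g₂ hg₂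
      refine ⟨(k₁, k₂), Sum.elim θ₁ θ₂, fun v j => ?_⟩
      simp only
      rw [map_add, e1 (k₁, k₂), e2 (k₁, k₂), ← h1, ← h2]
  · intro b
    refine ⟨κ₁ × κ₂, inferInstance, fun k => ⟨(F₁ k.1).σ ⊕ (F₂ k.2).σ, inferInstance,
      fun v j => ∑ a, ∑ e, C (b a e j) * (rename Sum.inl ((F₁ k.1).P v a) *
        rename Sum.inr ((F₂ k.2).P v e))⟩,
      fun k v j => ?_, hsum, ?_⟩
    · refine (totalDegree_finsetSum _ _).trans (Finset.sup_le fun a _ => ?_)
      refine (totalDegree_finsetSum _ _).trans (Finset.sup_le fun e _ => ?_)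
      refine (totalDegree_mul _ _).trans ?_
      rw [totalDegree_C, zero_add]
      exact (totalDegree_mul _ _).trans (add_le_add (d1 k v a) (d2 k v e))
    · rintro g ⟨g₁, hg₁, g₂, hg₂, rfl⟩
      obtain ⟨k₁, θ₁, h1⟩ := a3 g₁ hg₁
      obtain ⟨k₂, θ₂, h2⟩ := b3 g₂ hg₂
      refine ⟨(k₁, k₂), Sum.elim θ₁ θ₂, fun v j => ?_⟩
      simp only
      rw [map_sum]
      refine sum_congr rfl fun a _ => ?_
      rw [map_sum]
      refine sum_congr rfl fun e _ => ?_
      rw [map_mul, map_mul, eval_C, e1 (k₁, k₂), e2 (k₁, k₂), ← h1, ← h2]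

open Classical in
/-- few sign patterns -/
theorem Cov.bool [Fintype Y] (h : Cov M D W 𝒢) (l : Fin d → ℝ)
    (hM : 4 * Fintype.card Y * D + 2 ≤ M) :
    ∃ S : Finset (Y → Bool), S.card ≤ W ∧
      ∀ g ∈ 𝒢, (fun v => decide (0 < ∑ j, l j * g v j)) ∈ S := by
  obtain ⟨κ, _, F, h1, h2, h3⟩ := h
  obtain ⟨Q, hQ⟩ : ∃ Q : (k : κ) → Y → MvPolynomial (F k).σ ℝ, Q = fun k v =>
    ∑ j, C (l j) * (F k).P v j := ⟨_, rfl⟩
  have hQd : ∀ k v, (Q k v).totalDegree ≤ D := by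
    intro k v
    rw [hQ]
    refine (totalDegree_finsetSum _ _).trans (Finset.sup_le fun j _ => ?_)
    refine (totalDegree_mul _ _).trans ?_
    rw [totalDegree_C, zero_add]
    exact h1 k v j
  have hQe : ∀ k v (θ : (F k).σ → ℝ), eval θ (Q k v) = ∑ j, l j * eval θ ((F k).P v j) := by
    intro k v θ
    rw [hQ]
    simp only [map_sum, map_mul, eval_C]
  refine ⟨univ.biUnion (fun k : κ => (Set.toFinite (Set.range (fun θ : (F k).σ → ℝ => fun v : Y =>
    SignType.sign (eval θ (Q k v))))).toFinset.image (fun σ => fun v => decide (σ v = 1))), ?_, ?_⟩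
  · refine card_biUnion_le.trans (le_trans ?_ h2)
    apply sum_le_sum
    intro k _
    refine card_image_le.trans ?_
    rw [← Set.ncard_eq_toFinset_card]
    refine (Pool.Agent.Helper448.Warren.ncard_sign_patterns_le (Q k) D (hQd k)).trans ?_
    exact Nat.pow_le_pow_left hM _
  · intro g hg
    obtain ⟨k, θ, hk⟩ := h3 g hg
    rw [mem_biUnion]
    refine ⟨k, mem_univ _, ?_⟩
    rw [mem_image]
    refine ⟨fun v => SignType.sign (eval θ (Q k v)), ?_, ?_⟩
    · rw [Set.Finite.mem_toFinset]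
      exact ⟨θ, rfl⟩
    · funext v
      simp only [sign_eq_one_iff, hQe, hk]

open Classical in
/-- composition with unary functions -/
theorem Cov.un [Fintype Y] (h : Cov M D W 𝒢) (hM : 4 * Fintype.card Y * (D + 1) + 2 ≤ M) :
    Cov M (D + 1) (W * (M ^ (d ^ 2 + d) + M ^ (3 * d + 1)))
      {g' | ∃ g ∈ 𝒢, ∃ u, Un u ∧ g' = fun v => u (g v)} := by
  obtain ⟨κ, _, F, h1, h2, h3⟩ := h
  -- the affine form whose sign is tested
  obtain ⟨Q, hQ⟩ : ∃ Q : (k : κ) → Y → MvPolynomial ((F k).σ ⊕ (Fin d ⊕ Unit)) ℝ, Q = fun k v =>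
    ∑ a, X (Sum.inr (Sum.inl a)) * rename Sum.inl ((F k).P v a) + X (Sum.inr (Sum.inr ())) :=
      ⟨_, rfl⟩
  have hdeg : ∀ k v a (τ : Type) (x : (F k).σ ⊕ τ),
      (X x * rename Sum.inl ((F k).P v a) : MvPolynomial ((F k).σ ⊕ τ) ℝ).totalDegree ≤ D + 1 := by
    intro k v a τ x
    refine (totalDegree_mul _ _).trans ?_
    rw [totalDegree_X, add_comm]
    exact Nat.add_le_add_right ((totalDegree_rename_le _ _).trans (h1 k v a)) 1
  have hQd : ∀ k v, (Q k v).totalDegree ≤ D + 1 := by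
    intro k v
    rw [hQ]
    refine (totalDegree_add _ _).trans (max_le ?_ ?_)
    · refine (totalDegree_finsetSum _ _).trans (Finset.sup_le fun a _ => ?_)
      exact hdeg k v a _ _
    · rw [totalDegree_X]
      omega
  have hQe : ∀ k v (θ : (F k).σ → ℝ) (c : Fin d → ℝ) (e : ℝ),
      eval (Sum.elim θ (Sum.elim c (fun _ => e))) (Q k v) =
        ∑ a, c a * eval θ ((F k).P v a) + e := by
    intro k v θ c e
    rw [hQ]
    simp only [map_add, map_sum, map_mul, eval_X, eval_rename, Sum.elim_inr, Sum.elim_inl,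
      Sum.elim_comp_inl]
  obtain ⟨R, hR⟩ : ∃ R : κ → Set (Y → SignType), R = fun k =>
      Set.range (fun θ : (F k).σ ⊕ (Fin d ⊕ Unit) → ℝ => fun v : Y =>
        SignType.sign (eval θ (Q k v))) := ⟨_, rfl⟩
  have hRc : ∀ k, Fintype.card (R k) ≤ M ^ (Fintype.card (F k).σ + (d + 1)) := by
    intro k
    rw [← Nat.card_eq_fintype_card, Nat.card_coe_set_eq, hR]
    refine (Pool.Agent.Helper448.Warren.ncard_sign_patterns_le (Q k) (D + 1) (hQd k)).trans ?_
    rw [Fintype.card_sum, Fintype.card_sum, Fintype.card_fin, Fintype.card_unit]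
    exact Nat.pow_le_pow_left hM _
  refine ⟨κ ⊕ (Σ k : κ, R k), inferInstance, fun k => match k with
    | .inl k => ⟨(F k).σ ⊕ (Fin d × Fin d ⊕ Fin d), inferInstance, fun v j =>
        ∑ a, X (Sum.inr (Sum.inl (j, a))) * rename Sum.inl ((F k).P v a) +
          X (Sum.inr (Sum.inr j))⟩
    | .inr k => ⟨Fin d ⊕ Fin d, inferInstance, fun v j =>
        X (if k.2.1 v = 1 then Sum.inl j else Sum.inr j)⟩, ?_, ?_, ?_⟩
  · rintro (k | k) v j
    · simp only
      refine (totalDegree_add _ _).trans (max_le ?_ ?_)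
      · refine (totalDegree_finsetSum _ _).trans (Finset.sup_le fun a _ => ?_)
        exact hdeg k v a _ _
      · rw [totalDegree_X]
        omega
    · simp only
      rw [totalDegree_X]
      omega
  · rw [Fintype.sum_sum_type]
    have c1 : ∀ k : κ, Fintype.card ((F k).σ ⊕ (Fin d × Fin d ⊕ Fin d)) =
        Fintype.card (F k).σ + (d ^ 2 + d) := by
      intro k
      rw [Fintype.card_sum, Fintype.card_sum, Fintype.card_prod, Fintype.card_fin]
      ring
    have c2 : Fintype.card (Fin d ⊕ Fin d) = 2 * d := by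
      rw [Fintype.card_sum, Fintype.card_fin]
      ring
    calc ∑ k, M ^ Fintype.card ((F k).σ ⊕ (Fin d × Fin d ⊕ Fin d)) +
          ∑ _k : (Σ k : κ, R k), M ^ Fintype.card (Fin d ⊕ Fin d)
        = ∑ k, M ^ (Fintype.card (F k).σ + (d ^ 2 + d)) +
          ∑ k, Fintype.card (R k) * M ^ (2 * d) := by
          congr 1
          · exact sum_congr rfl fun k _ => by rw [c1]
          · rw [Fintype.sum_sigma]
            simp only [sum_const, card_univ, smul_eq_mul, c2]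
      _ ≤ ∑ k, M ^ (Fintype.card (F k).σ + (d ^ 2 + d)) +
          ∑ k, M ^ (Fintype.card (F k).σ + (d + 1)) * M ^ (2 * d) :=
          Nat.add_le_add_left (sum_le_sum fun k _ => Nat.mul_le_mul_right _ (hRc k)) _
      _ = (∑ k, M ^ Fintype.card (F k).σ) * (M ^ (d ^ 2 + d) + M ^ (3 * d + 1)) := by
          rw [← sum_add_distrib, sum_mul]
          refine sum_congr rfl fun k _ => ?_
          rw [show 3 * d + 1 = (d + 1) + 2 * d by ring, pow_add _ _ (d ^ 2 + d),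
            pow_add _ _ (d + 1), pow_add _ (d + 1) (2 * d)]
          ring
      _ ≤ W * (M ^ (d ^ 2 + d) + M ^ (3 * d + 1)) := Nat.mul_le_mul_right _ h2
  · rintro g' ⟨g, hg, u, hu, rfl⟩
    obtain ⟨k, θ, hk⟩ := h3 g hg
    rcases hu with ⟨A, b, rfl⟩ | ⟨h, c, e, rfl⟩
    · refine ⟨Sum.inl k, Sum.elim θ (Sum.elim (fun p => A p.1 p.2) b), fun v j => ?_⟩
      simp only [map_add, map_sum, map_mul, eval_X, eval_rename, Sum.elim_inr, Sum.elim_inl,
        Sum.elim_comp_inl, hk]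
    · refine ⟨Sum.inr ⟨k, ⟨fun v => SignType.sign (eval (Sum.elim θ (Sum.elim c
        (fun _ => e))) (Q k v)), ?_⟩⟩, Sum.elim (h true) (h false), fun v j => ?_⟩
      · rw [hR]
        exact ⟨_, rfl⟩
      · simp only [eval_X, hQe, hk, sign_eq_one_iff]
        split_ifs with h9
        · rw [decide_eq_true h9, Sum.elim_inl]
        · rw [decide_eq_false h9, Sum.elim_inr]

end Pool.Agent.N452.TF
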