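import Pool.Agent.TH697.Row.Promise

set_option autoImplicit false

/-! # Formulas of bilinear maps, branching programs which test them, and circuits of shared bits

The wires of a formula carry vectors of dimension `d`; a gate may apply any bilinear map to two
vectors, or a matrix which depends on the input to one vector. Products of matrices of order `d`
(weighted automata, algebraic branching programs of width `d`) and the contraction trees of tensor
networks are formulas of this kind: if the intermediate tensors of a contraction have at most `d`
entries, then each step of the contraction is a bilinear map of two vectors of dimension `d`. -/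

namespace Pool.Agent.N452.TF

open Finset

/-- A function of several coordinates of the input. It is an arbitrary function (with values in `E`)
of (at most) `w` coordinates, each of which is seen through an arbitrary function with `q` values. -/
structure Word (ι : Type) (D : ι → Type) (w q : ℕ) (E : Type) where
  /-- the coordinates which are seen -/
  item : Fin w → ι
  /-- what is seen of them -/
  view : ∀ k, D (item k) → Fin q
  /-- the value -/
  out : (Fin w → Fin q) → E

/-- The leaves: arbitrary functions of one coordinate of the input, and arbitrary functions of `w`
words. -/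
inductive Leaf (ι : Type) (D : ι → Type) (w q : ℕ) (E : Type) : Type
  | item : (i : ι) → (D i → E) → Leaf ι D w q E
  | word : Word ι D w q E → Leaf ι D w q E

namespace Leaf

variable {ι : Type} {D : ι → Type} {w q : ℕ} {E : Type}

/-- The value of the leaf. -/
def val : Leaf ι D w q E → (∀ i, D i) → E
  | item i f, x => f (x i)
  | word τ, x => τ.out (fun k => τ.view k (x (τ.item k)))

/-- The size of the leaf, if a reading of the coordinate `i` costs `c i`. -/
def size (c : ι → ℕ) : Leaf ι D w q E → ℕ
  | item i _ => c i
  | word τ => ∑ k, c (τ.item k)

/-- Does the leaf see a coordinate in the set `A`? -/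
def Sees (A : Set ι) : Leaf ι D w q E → Prop
  | item i _ => i ∈ A
  | word τ => ∃ k, τ.item k ∈ A

end Leaf

/-- Formulas whose values are vectors in `ℝ ^ d`: constants, leaves with vectors as values, gates
`act` which apply a matrix to a vector (the matrix is the value of a leaf), sums, arbitrary bilinear
maps of two vectors (given by their tensors), tests of the sign of a linear form with two arbitrary
vectors as the results, and gates `sym` of any fan-in `k` whose value is an arbitrary function of
the number of the inputs for which a linear form is positive. -/
inductive Fml (ι : Type) (D : ι → Type) (w q d : ℕ) : Type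
  | const : (Fin d → ℝ) → Fml ι D w q d
  | leaf : Leaf ι D w q (Fin d → ℝ) → Fml ι D w q d
  | act : Leaf ι D w q (Fin d → Fin d → ℝ) → Fml ι D w q d → Fml ι D w q d
  | add : Fml ι D w q d → Fml ι D w q d → Fml ι D w q d
  | bil : (Fin d → Fin d → Fin d → ℝ) → Fml ι D w q d → Fml ι D w q d → Fml ι D w q d
  | test : (Fin d → ℝ) → (Bool → Fin d → ℝ) → Fml ι D w q d → Fml ι D w q d
  | sym : (k : ℕ) → (Fin k → Fin d → ℝ) → (ℕ → Fin d → ℝ) → (Fin k → Fml ι D w q d) →
      Fml ι D w q d

namespace Fml

variable {ι : Type} {D : ι → Type} {w q d : ℕ}

/-- The value of the formula. -/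
noncomputable def eval : Fml ι D w q d → (∀ i, D i) → Fin d → ℝ
  | const c, _ => c
  | leaf L, x => L.val x
  | act L F, x => fun j => ∑ a, L.val x j a * F.eval x a
  | add F G, x => fun j => F.eval x j + G.eval x j
  | bil b F G, x => fun j => ∑ a, ∑ e, b a e j * (F.eval x a * G.eval x e)
  | test l h F, x => h (decide (0 < ∑ j, l j * F.eval x j))
  | sym _ l h F, x => h (univ.filter (fun i => 0 < ∑ j, l i j * (F i).eval x j)).card

/-- The size, if a reading of the coordinate `i` costs `c i`; the wires which lead to gates `sym`
are counted, too. -/
def size (c : ι → ℕ) : Fml ι D w q d → ℕ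
  | const _ => 0
  | leaf L => L.size c
  | act L F => L.size c + F.size c
  | add F G => F.size c + G.size c
  | bil _ F G => F.size c + G.size c
  | test _ _ F => F.size c
  | sym k _ _ F => k + ∑ j, (F j).size c

/-- Does some leaf see a coordinate in the set `A`? -/
def Sees (A : Set ι) : Fml ι D w q d → Prop
  | const _ => False
  | leaf L => L.Sees A
  | act L F => L.Sees A ∨ F.Sees A
  | add F G => F.Sees A ∨ G.Sees A
  | bil _ F G => F.Sees A ∨ G.Sees A
  | test _ _ F => F.Sees A
  | sym _ _ _ F => ∃ j, (F j).Sees A

/-- The formula accepts the input if the sum of the coordinates of its value is positive. -/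
noncomputable def accepts (F : Fml ι D w q d) (x : ∀ i, D i) : Bool :=
  decide (0 < ∑ j, F.eval x j)

end Fml

/-- Branching programs with `n` inner nodes. The nodes are numbered: `0` and `1` are the two sinks,
`2, 3, …, n + 1` are the inner nodes. An inner node is labelled with a formula, and its two
successors are nodes with smaller numbers. -/
inductive BP (ι : Type) (D : ι → Type) (w q d : ℕ) : ℕ → Type
  | sinks : BP ι D w q d 0
  | node : {n : ℕ} → BP ι D w q d n → Fml ι D w q d → (no yes : Fin (n + 2)) →
      BP ι D w q d (n + 1)

namespace BP

variable {ι : Type} {D : ι → Type} {w q d : ℕ}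

/-- The value of the sink which is reached from a node (`0` rejects, `1` accepts). An inner node
leads to its successor `yes` if its formula accepts the input. -/
noncomputable def val : {n : ℕ} → BP ι D w q d n → (∀ i, D i) → Fin (n + 2) → Bool
  | _, sinks, _, v => decide (v = 1)
  | _, node B F no yes, x, v =>
      Fin.lastCases (motive := fun _ => Bool) (if F.accepts x then B.val x yes else B.val x no)
        (fun u => B.val x u) v

/-- The size: the number of the inner nodes plus the sizes of all formulas. -/
def size (c : ι → ℕ) : {n : ℕ} → BP ι D w q d n → ℕ
  | _, sinks => 0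
  | _, node B F _ _ => B.size c + (F.size c + 1)

/-- Does some leaf see a coordinate in the set `A`? -/
def Sees (A : Set ι) : {n : ℕ} → BP ι D w q d n → Prop
  | _, sinks => False
  | _, node B F _ _ => B.Sees A ∨ F.Sees A

end BP

/-- A branching program with a start node. -/
structure Program (ι : Type) (D : ι → Type) (w q d : ℕ) where
  /-- number of inner nodes -/
  nodes : ℕ
  bp : BP ι D w q d nodes
  start : Fin (nodes + 2)

/-- The result of the computation. -/
noncomputable def Program.eval {ι : Type} {D : ι → Type} {w q d : ℕ} (B : Program ι D w q d)
    (x : ∀ i, D i) : Bool :=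
  B.bp.val x B.start

/-- The input of a program which may use `m` bits besides the items. -/
def Ext {ι : Type} (D : ι → Type) (m : ℕ) : ι ⊕ Fin m → Type
  | .inl i => D i
  | .inr _ => Bool

/-- The items together with `m` bits. -/
def ext {ι : Type} {D : ι → Type} {m : ℕ} (x : ∀ i, D i) (b : Fin m → Bool) :
    ∀ a, Ext D m a
  | .inl i => x i
  | .inr j => b j

/-- Circuits with `m` shared bits: every bit is computed by a branching program from the items and
the bits before it. -/
inductive Circ (ι : Type) (D : ι → Type) (w q d : ℕ) : ℕ → Type
  | nil : Circ ι D w q d 0
  | snoc : {m : ℕ} → Circ ι D w q d m → Program (ι ⊕ Fin m) (Ext D m) w q d →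
      Circ ι D w q d (m + 1)

namespace Circ

variable {ι : Type} {D : ι → Type} {w q d : ℕ}

/-- The values of the bits. -/
noncomputable def val : {m : ℕ} → Circ ι D w q d m → (∀ i, D i) → Fin m → Bool
  | _, nil, _ => fun j => j.elim0
  | _, snoc C P, x => Fin.lastCases (motive := fun _ => Bool) (P.eval (ext x (C.val x)))
      (fun j => C.val x j)

/-- The items and bits which depend on the item `i`: the item itself, and the bits whose programs
see the item or an earlier bit which depends on it. -/
def Dep (i : ι) : {m : ℕ} → Circ ι D w q d m → Set (ι ⊕ Fin m)
  | _, nil => {Sum.inl i}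
  | _, snoc (m := m) C P => fun a => a = Sum.inl i ∨
      (∃ j : Fin m, a = Sum.inr j.castSucc ∧ Sum.inr j ∈ Dep i C) ∨
      (a = Sum.inr (Fin.last m) ∧ P.bp.Sees (Dep i C))

open Classical in
/-- The price of an item or a bit: the number of the items in `I` on which it depends. -/
noncomputable def price (I : Finset ι) {m : ℕ} (C : Circ ι D w q d m) (a : ι ⊕ Fin m) : ℕ :=
  (I.filter (fun i => a ∈ C.Dep i)).card

/-- The cost: the inner nodes of all programs, the wires which lead to gates `sym`, and the
prices of all items and bits which are seen by the leaves. -/
noncomputable def cost (I : Finset ι) : {m : ℕ} → Circ ι D w q d m → ℕ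
  | _, nil => 0
  | _, snoc C P => C.cost I + P.bp.size (C.price I)

end Circ

/-- A circuit whose last bit is the output. -/
structure Circuit (ι : Type) (D : ι → Type) (w q d : ℕ) where
  /-- number of shared bits before the output -/
  bits : ℕ
  circ : Circ ι D w q d (bits + 1)

/-- The output of the circuit. -/
noncomputable def Circuit.eval {ι : Type} {D : ι → Type} {w q d : ℕ} (C : Circuit ι D w q d)
    (x : ∀ i, D i) : Bool :=
  C.circ.val x (Fin.last _)

end Pool.Agent.N452.TF
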