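import Pool.Agent.N452.TF.Lower
import Pool.Agent.N452.TF.Conv
import Pool.Agent.R617.RFE.ET

set_option autoImplicit false

/-! # Triangles of weight zero -/

namespace Pool.Agent.N452.TF.ExactTri

open Finset Pool.Agent.TH697.Row
open Pool.Agent.TH697.Form (IsProb)
open Pool.Agent.Y638.RF.ZT
open Pool.Agent.R617.RFE (logb_n)

variable {n c w d : ℕ}

/-- The edges between the first two parts. -/
def edges (n : ℕ) : Finset (Fin 3 × Fin n × Fin n) := univ.filter (fun e => e.1 = 0)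

theorem edges_eq : edges n = first n := by
  ext e
  unfold edges first
  rw [mem_filter, mem_map]
  constructor
  · rintro ⟨-, h⟩
    exact ⟨e.2, mem_univ _, Prod.ext h.symm rfl⟩
  · rintro ⟨p, -, rfl⟩
    exact ⟨mem_univ _, rfl⟩

/-- the arithmetic -/
theorem arith {n c w d l s : ℝ} (hn : 2048 ≤ n) (hc : 1 ≤ c) (hw : 1 ≤ w) (hd : 1 ≤ d)
    (hl0 : 1 ≤ l) (hs : 0 ≤ s)
    (h : n ^ 2 * ((49 / 600 - 0) * n - 1) ≤
      (3 + (2 * d ^ 2 + 8 * d + 7) * (5 * l) + 2 * (w - 1) * (c * l)) * s) :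
    n ^ 3 ≤ 1100 * (w * c + d ^ 2) * l * s := by
  have h1 : 2 / 25 * n ≤ (49 / 600 - 0) * n - 1 := by linarith
  have h2 : n ^ 2 * (2 / 25 * n) ≤ n ^ 2 * ((49 / 600 - 0) * n - 1) :=
    mul_le_mul_of_nonneg_left h1 (by positivity)
  have hd2 : 1 ≤ d ^ 2 := by nlinarith
  have h3 : 3 + (2 * d ^ 2 + 8 * d + 7) * (5 * l) + 2 * (w - 1) * (c * l) ≤
      88 * (w * c + d ^ 2) * l := by
    have h5 : 2 * d ^ 2 + 8 * d + 7 ≤ 17 * d ^ 2 := by nlinarith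
    have h6 : (2 * d ^ 2 + 8 * d + 7) * (5 * l) ≤ 17 * d ^ 2 * (5 * l) := by
      apply mul_le_mul_of_nonneg_right h5 (by linarith)
    have h7 : 1 ≤ d ^ 2 * l := by nlinarith
    have h8 : 0 ≤ c * l := by positivity
    have h9 : 0 ≤ w * (c * l) := by positivity
    have h10 : (w - 1) * (c * l) ≤ w * (c * l) := by nlinarith
    nlinarith
  have h4 := mul_le_mul_of_nonneg_right h3 hs
  have e1 : n ^ 2 * (2 / 25 * n) = 2 / 25 * n ^ 3 := by ring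
  rw [e1] at h2
  nlinarith

theorem bound (hn : 2048 ≤ n) (hc : 1 ≤ c) (hw : 1 ≤ w) (hd : 1 ≤ d)
    {Ω : Type} [Fintype Ω] (μ : Ω → ℝ) (hμ : IsProb μ) (s : ℕ)
    (C : Ω → Circuit (Fin 3 × Fin n × Fin n) (fun _ => ℤ) w (n ^ c) d)
    (hs : ∀ ω, (C ω).circ.cost (edges n) ≤ s)
    (hC : ApproximatesOn μ (fun ω => (C ω).eval) InRange zeroTri) :
    (n : ℝ) ^ 3 ≤ 1100 * (w * c + (d : ℝ) ^ 2) * Real.logb 2 n * s := by
  classical
  have hw' : (1 : ℝ) ≤ w := by exact_mod_cast hw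
  have hc' : (1 : ℝ) ≤ c := by exact_mod_cast hc
  have hd' : (1 : ℝ) ≤ d := by exact_mod_cast hd
  have hs0 : (0 : ℝ) ≤ s := Nat.cast_nonneg s
  obtain ⟨-, hl1⟩ := logb_n hn
  by_cases hsn : n ^ 3 ≤ s
  · have h1 : (n : ℝ) ^ 3 ≤ s := by exact_mod_cast hsn
    have h2 : (1 : ℝ) ≤ w * c := by nlinarith
    have h3 : (1 : ℝ) ≤ 1100 * (w * c + (d : ℝ) ^ 2) := by nlinarith
    have h4 : (1 : ℝ) ≤ 1100 * (w * c + (d : ℝ) ^ 2) * Real.logb 2 n := by nlinarith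
    nlinarith
  have hM : 4 * n * (3 * s + 1) + 2 + s ≤ n ^ 5 := by
    have h1 : s < n ^ 3 := by omega
    have h2 : 4 * n * (3 * s + 1) ≤ 4 * n * (3 * n ^ 3) := Nat.mul_le_mul_left _ (by omega)
    have h3 : 4 * n * (3 * n ^ 3) = 12 * n ^ 4 := by ring
    have h4 : n ^ 3 ≤ n ^ 4 := Nat.pow_le_pow_right (by omega) (by norm_num)
    have h5 : 2048 * n ^ 4 ≤ n ^ 5 := by
      calc 2048 * n ^ 4 ≤ n * n ^ 4 := Nat.mul_le_mul_right _ hn
        _ = n ^ 5 := by ring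
    have h6 : 1 ≤ n ^ 4 := Nat.one_le_pow _ _ (by omega)
    omega
  have h := circuit_lower (D := fun _ : Fin 3 × Fin n × Fin n => ℤ) μ hμ s C InRange zeroTri hC
    (Nat.one_le_pow _ _ (by omega)) hw n (n ^ 5) hM 0 (edges n) hs (T := Fin n) (by
      rw [edges_eq]
      exact asks_first)
  rw [edges_eq, card_first, Fintype.card_fin] at h
  push_cast at h
  simp only [Real.logb_pow] at h
  push_cast at h
  exact arith (by exact_mod_cast hn) hc' hw' hd' hl1 hs0 h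

/-- exhaustive search -/
theorem upper (n q : ℕ) : ∃ C : Circuit (Fin 3 × Fin n × Fin n) (fun _ => ℤ) 1 q 1,
    C.bits = 0 ∧ C.circ.cost (edges n) ≤ 6 * n ^ 3 + 1 ∧ ∀ x, C.eval x = zeroTri x := by
  obtain ⟨F, h1, h2⟩ := Pool.Agent.R617.RFE.upper n 1 q
  obtain ⟨B, h3, h4⟩ := Pool.Agent.Y638.RF.exists_program F (6 * n ^ 3 + 1) (by omega)
  obtain ⟨C, h5, h6, h7⟩ := exists_circuit le_rfl B (edges n)
  refine ⟨C, h5, h6.trans (le_of_eq (by ring)), fun x => ?_⟩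
  rw [h7, h4, h2]

end Pool.Agent.N452.TF.ExactTri
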