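import Pool.Agent.N452.TF.ExactTri
import Pool.Agent.N452.TF.Build

set_option autoImplicit false

/-! # Triangles of weight zero: circuits of dimension `d` -/

namespace Pool.Agent.N452.TF.ExactTri

open Finset
open Pool.Agent.Y638.RF.ZT

section chain

variable {ι : Type} {D : ι → Type} {w q d : ℕ}

/-- A matrix whose entries are computed by formulas is applied to a vector: the entry `p` is the
coordinate `j0` of the formula `S p` (whose coordinate `j1` is one), it leads from the coordinate
`src p` to the coordinate `tgt p`. -/
theorem exists_chain {κ : Type} (j0 j1 : Fin d) (src tgt : κ → Fin d)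
    (hst : ∀ p p', src p ≠ tgt p') (S : κ → Fml ι D w q d) (T : κ → (∀ i, D i) → ℝ)
    (hS0 : ∀ p x, (S p).eval x j0 = T p x) (hS1 : ∀ p x, (S p).eval x j1 = 1)
    (F : Fml ι D w q d) (s : Finset κ) :
    ∃ G : Fml ι D w q d, (∀ x j, G.eval x j = F.eval x j +
        ∑ p ∈ s, if j = tgt p then T p x * F.eval x (src p) else 0) ∧
      ∀ c, G.size c = F.size c + ∑ p ∈ s, (S p).size c := by
  classical
  induction s using Finset.induction_on with
  | empty => exact ⟨F, fun x j => by simp, fun c => by simp⟩
  | insert p s hp ih =>
    obtain ⟨G, h1, h2⟩ := ih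
    refine ⟨.bil (fun a e j => (if a = j ∧ e = j1 then 1 else 0) +
      (if a = src p ∧ e = j0 ∧ j = tgt p then 1 else 0)) G (S p), fun x j => ?_, fun c => ?_⟩
    · have h3 : G.eval x (src p) = F.eval x (src p) := by
        rw [h1, sum_eq_zero, add_zero]
        intro p' _
        rw [if_neg (hst p p')]
      have h4 : ∑ a : Fin d, ∑ e : Fin d, (if a = j ∧ e = j1 then (1 : ℝ) else 0) *
          (G.eval x a * (S p).eval x e) = G.eval x j := by
        rw [sum_eq_single j, sum_eq_single j1]
        · rw [if_pos ⟨rfl, rfl⟩, hS1, one_mul, mul_one]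
        · intro e _ he
          rw [if_neg (fun h => he h.2), zero_mul]
        · intro h
          exact absurd (mem_univ _) h
        · intro a _ ha
          apply sum_eq_zero
          intro e _
          rw [if_neg (fun h => ha h.1), zero_mul]
        · intro h
          exact absurd (mem_univ _) h
      have h5 : ∑ a : Fin d, ∑ e : Fin d,
          (if a = src p ∧ e = j0 ∧ j = tgt p then (1 : ℝ) else 0) *
          (G.eval x a * (S p).eval x e) = if j = tgt p then T p x * F.eval x (src p) else 0 := by
        rw [sum_eq_single (src p), sum_eq_single j0]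
        · rw [h3, hS0]
          by_cases hj : j = tgt p
          · rw [if_pos ⟨rfl, rfl, hj⟩, if_pos hj]
            ring
          · rw [if_neg (fun h => hj h.2.2), if_neg hj, zero_mul]
        · intro e _ he
          rw [if_neg (fun h => he h.2.1), zero_mul]
        · intro h
          exact absurd (mem_univ _) h
        · intro a _ ha
          apply sum_eq_zero
          intro e _
          rw [if_neg (fun h => ha h.1), zero_mul]
        · intro h
          exact absurd (mem_univ _) h
      simp only [Fml.eval, add_mul, sum_add_distrib]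
      rw [h4, h5, h1, sum_insert hp]
      ring
    · rw [sum_insert hp]
      simp only [Fml.size, h2]
      ring

end chain

variable {n w q b d : ℕ}

/-- the number of a weight -/
def code (n : ℕ) (v : ℤ) : ℕ := (v + (n + 1)).toNat

/-- the first reading -/
noncomputable def lowLeaf (n b d β : ℕ) (v : ℤ) (t : Fin d) : ℝ :=
  if code n v / (b * b) = β ∧ t.val = code n v % b then 1 else 0

/-- the second reading -/
noncomputable def highLeaf (n b d β : ℕ) (v : ℤ) (t : Fin d) : ℝ :=
  if code n v / (b * b) = β ∧ t.val = b + code n v / b % b then 1 else 0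

/-- the formula for the number of the paths of weight `-m` -/
noncomputable def pathFml (n w q d : ℕ) (j0 : Fin d) (i j : Fin n) (m : ℤ) (k : Fin n) :
    Fml ((Fin 3 × Fin n × Fin n) ⊕ Fin 0) (Ext (fun _ => ℤ) 0) w q d :=
  .add (.const (fun t => if t = j0 then 1 else 0))
    (.add
      (.test (fun t => if t = j0 then 1 else 0) (fun c t => if c ∧ t = j0 then -1 else 0)
        (.add (.leaf (.item (Sum.inl (1, j, k)) (fun (v : ℤ) t => if t = j0 then (v : ℝ) else 0)))
          (.add (.leaf (.item (Sum.inl (2, i, k)) (fun (v : ℤ) t => if t = j0 then (v : ℝ) else 0)))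
            (.const (fun t => if t = j0 then (m : ℝ) else 0)))))
      (.test (fun t => if t = j0 then -1 else 0) (fun c t => if c ∧ t = j0 then -1 else 0)
        (.add (.leaf (.item (Sum.inl (1, j, k)) (fun (v : ℤ) t => if t = j0 then (v : ℝ) else 0)))
          (.add (.leaf (.item (Sum.inl (2, i, k)) (fun (v : ℤ) t => if t = j0 then (v : ℝ) else 0)))
            (.const (fun t => if t = j0 then (m : ℝ) else 0))))))

theorem pathFml_eval (j0 : Fin d) (i j : Fin n) (m : ℤ) (k : Fin n)
    (x : Fin 3 × Fin n × Fin n → ℤ) (β : Fin 0 → Bool) (t : Fin d) :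
    (pathFml n w q d j0 i j m k).eval (ext (D := fun _ => ℤ) x β) t =
      if t = j0 then (if x (1, j, k) + x (2, i, k) + m = 0 then 1 else 0) else 0 := by
  obtain ⟨y, hy⟩ : ∃ y : ℤ, y = x (1, j, k) + x (2, i, k) + m := ⟨_, rfl⟩
  have h1 : (pathFml n w q d j0 i j m k).eval (ext (D := fun _ => ℤ) x β) t =
      (if t = j0 then (1 : ℝ) else 0) +
      ((if (decide (0 < ∑ t : Fin d, (if t = j0 then (1 : ℝ) else 0) *
        ((if t = j0 then (x (1, j, k) : ℝ) else 0) + ((if t = j0 then (x (2, i, k) : ℝ) else 0) +
          (if t = j0 then (m : ℝ) else 0)))) = true) ∧ t = j0 then -1 else 0) +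
      (if (decide (0 < ∑ t : Fin d, (if t = j0 then (-1 : ℝ) else 0) *
        ((if t = j0 then (x (1, j, k) : ℝ) else 0) + ((if t = j0 then (x (2, i, k) : ℝ) else 0) +
          (if t = j0 then (m : ℝ) else 0)))) = true) ∧ t = j0 then -1 else 0)) := rfl
  have h2 : ∀ a : ℝ, ∑ t : Fin d, (if t = j0 then a else 0) *
        ((if t = j0 then (x (1, j, k) : ℝ) else 0) + ((if t = j0 then (x (2, i, k) : ℝ) else 0) +
          (if t = j0 then (m : ℝ) else 0))) = a * (y : ℝ) := by
    intro a
    rw [sum_eq_single j0]
    · simp only [if_true]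
      rw [hy]
      push_cast
      ring
    · intro t _ ht
      rw [if_neg ht, zero_mul]
    · intro h
      exact absurd (mem_univ _) h
  rw [h1, h2, h2, ← hy]
  by_cases ht : t = j0
  · simp only [ht, if_true, and_true, decide_eq_true_eq, one_mul]
    rcases lt_trichotomy y 0 with h | h | h
    · have h3 : (y : ℝ) < 0 := by exact_mod_cast h
      rw [if_neg (by linarith), if_pos (by linarith), if_neg (by omega)]
      norm_num
    · subst h
      simp
    · have h3 : (0 : ℝ) < y := by exact_mod_cast h
      rw [if_pos h3, if_neg (by linarith), if_neg (by omega)]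
      norm_num
  · simp [ht]

/-- the number of the paths of weight `-m` -/
noncomputable def paths (x : Fin 3 × Fin n × Fin n → ℤ) (i j : Fin n) (m : ℤ) : ℝ :=
  ∑ k : Fin n, if x (1, j, k) + x (2, i, k) + m = 0 then 1 else 0

/-- the price of the free weights -/
theorem price_free (e : Fin 3 × Fin n × Fin n) (he : e.1 ≠ 0) :
    (Circ.nil : Circ (Fin 3 × Fin n × Fin n) (fun _ => ℤ) w q d 0).price (edges n)
      (Sum.inl e) = 0 := by
  rw [price_nil, if_neg]
  unfold edges
  rw [mem_filter]
  exact fun h => he h.2

theorem price_le (e : Fin 3 × Fin n × Fin n) :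
    (Circ.nil : Circ (Fin 3 × Fin n × Fin n) (fun _ => ℤ) w q d 0).price (edges n)
      (Sum.inl e) ≤ 1 := by
  rw [price_nil]
  split_ifs <;> omega

/-- A table which is read twice. -/
theorem exists_block (hb : 1 ≤ b) (hd : 2 * b ≤ d) (i j : Fin n) (β : ℕ) :
    ∃ G : Fml ((Fin 3 × Fin n × Fin n) ⊕ Fin 0) (Ext (fun _ => ℤ) 0) w q d,
      (∀ (x : Fin 3 × Fin n × Fin n → ℤ) (y : Fin 0 → Bool) (t : Fin d),
        G.eval (ext (D := fun _ => ℤ) x y) t = if t.val = 0 then
          (if code n (x (0, i, j)) / (b * b) = β then
            paths x i j ((code n (x (0, i, j)) : ℤ) - (n + 1)) else 0) else 0) ∧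
      G.size ((Circ.nil : Circ (Fin 3 × Fin n × Fin n) (fun _ => ℤ) w q d 0).price (edges n)) ≤
        2 := by
  classical
  have hd0 : 0 < d := by omega
  have hd1 : 1 < d := by omega
  -- the entries of the table
  choose R hR1 hR2 using fun p : Fin b × Fin b =>
    exists_sum (univ : Finset (Fin n)) (pathFml n w q d ⟨0, hd0⟩ i j
      (((p.2.val + b * p.1.val + b * b * β : ℕ) : ℤ) - (n + 1)))
  have hext : ∀ z : (∀ a, Ext (fun _ : Fin 3 × Fin n × Fin n => ℤ) 0 a),
      z = ext (D := fun _ => ℤ) (fun a => z (Sum.inl a)) (fun a => z (Sum.inr a)) := by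
    intro z
    funext a
    rcases a with a | a <;> rfl
  have hR : ∀ (p : Fin b × Fin b) (z : ∀ a, Ext (fun _ : Fin 3 × Fin n × Fin n => ℤ) 0 a)
      (t : Fin d), (R p).eval z t = if t = ⟨0, hd0⟩ then paths (fun a => z (Sum.inl a)) i j
        (((p.2.val + b * p.1.val + b * b * β : ℕ) : ℤ) - (n + 1)) else 0 := by
    intro p z t
    rw [hext z, hR1]
    simp only [pathFml_eval]
    by_cases ht : t = ⟨0, hd0⟩
    · simp only [ht, if_true]
      rfl
    · simp only [ht, if_false]
      simp
  obtain ⟨S, hS⟩ : ∃ S : Fin b × Fin b → Fml ((Fin 3 × Fin n × Fin n) ⊕ Fin 0)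
      (Ext (fun _ => ℤ) 0) w q d, S = fun p => .add (R p) (.const (fun t =>
        if t = ⟨1, hd1⟩ then 1 else 0)) := ⟨_, rfl⟩
  obtain ⟨G, hG1, hG2⟩ := exists_chain (⟨0, hd0⟩ : Fin d) ⟨1, hd1⟩
    (fun p : Fin b × Fin b => ⟨p.2.val, by omega⟩) (fun p => ⟨b + p.1.val, by omega⟩)
    (fun p p' h => by
      have h1 := congrArg Fin.val h
      simp only at h1
      omega) S (fun p z => paths (fun a => z (Sum.inl a)) i j
        (((p.2.val + b * p.1.val + b * b * β : ℕ) : ℤ) - (n + 1)))
    (fun p z => by
      rw [hS]
      simp only [Fml.eval, hR]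
      simp)
    (fun p z => by
      rw [hS]
      simp only [Fml.eval, hR]
      simp)
    (.leaf (.item (Sum.inl (0, i, j)) (lowLeaf n b d β))) univ
  refine ⟨.bil (fun a e t => if a = e ∧ t.val = 0 then 1 else 0)
    (.leaf (.item (Sum.inl (0, i, j)) (highLeaf n b d β))) G, fun x y t => ?_, ?_⟩
  · obtain ⟨v, hv⟩ : ∃ v, v = x (0, i, j) := ⟨_, rfl⟩
    obtain ⟨u, hu⟩ : ∃ u, u = code n v := ⟨_, rfl⟩
    rw [← hv, ← hu]
    have h1 : (Fml.bil (fun a e t => if a = e ∧ t.val = 0 then 1 else 0)
        (.leaf (.item (Sum.inl (0, i, j)) (highLeaf n b d β))) G).eval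
          (ext (D := fun _ => ℤ) x y) t = if t.val = 0 then
          ∑ a, highLeaf n b d β v a * G.eval (ext (D := fun _ => ℤ) x y) a else 0 := by
      have h2 : (Fml.bil (fun a e t => if a = e ∧ t.val = 0 then 1 else 0)
        (.leaf (.item (Sum.inl (0, i, j)) (highLeaf n b d β))) G).eval
          (ext (D := fun _ => ℤ) x y) t = ∑ a, ∑ e, (if a = e ∧ t.val = 0 then (1 : ℝ) else 0) *
            (highLeaf n b d β v a * G.eval (ext (D := fun _ => ℤ) x y) e) := by
        rw [hv]
        rfl
      rw [h2]
      by_cases ht : t.val = 0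
      · rw [if_pos ht]
        refine sum_congr rfl fun a _ => ?_
        rw [sum_eq_single a]
        · rw [if_pos ⟨rfl, ht⟩, one_mul]
        · intro e _ he
          rw [if_neg (fun h => he h.1.symm), zero_mul]
        · intro h
          exact absurd (mem_univ _) h
      · rw [if_neg ht]
        apply sum_eq_zero
        intro a _
        apply sum_eq_zero
        intro e _
        rw [if_neg (fun h => ht h.2), zero_mul]
    rw [h1]
    by_cases ht : t.val = 0
    · rw [if_pos ht, if_pos ht]
      have hr1 : u / b % b < b := Nat.mod_lt _ (by omega)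
      have hr0 : u % b < b := Nat.mod_lt _ (by omega)
      by_cases hβ : u / (b * b) = β
      · rw [if_pos hβ]
        rw [sum_eq_single (⟨b + u / b % b, by omega⟩ : Fin d)]
        · have h3 : highLeaf n b d β v ⟨b + u / b % b, by omega⟩ = 1 := by
            unfold highLeaf
            rw [← hu, if_pos ⟨hβ, rfl⟩]
          rw [h3, one_mul, hG1]
          have h4 : (Fml.leaf (Leaf.item (Sum.inl (0, i, j)) (lowLeaf n b d β)) :
              Fml ((Fin 3 × Fin n × Fin n) ⊕ Fin 0) (Ext (fun _ => ℤ) 0) w q d).eval
                (ext (D := fun _ => ℤ) x y) ⟨b + u / b % b, by omega⟩ = 0 := by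
            have h5 : (Fml.leaf (Leaf.item (Sum.inl (0, i, j)) (lowLeaf n b d β)) :
              Fml ((Fin 3 × Fin n × Fin n) ⊕ Fin 0) (Ext (fun _ => ℤ) 0) w q d).eval
                (ext (D := fun _ => ℤ) x y) ⟨b + u / b % b, by omega⟩ =
                lowLeaf n b d β v ⟨b + u / b % b, by omega⟩ := by
              rw [hv]
              rfl
            rw [h5]
            unfold lowLeaf
            rw [← hu, if_neg]
            rintro ⟨-, h6⟩
            simp only at h6
            omega
          rw [h4, zero_add, sum_eq_single (⟨u / b % b, hr1⟩, ⟨u % b, hr0⟩)]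
          · rw [if_pos rfl]
            have h5 : (Fml.leaf (Leaf.item (Sum.inl (0, i, j)) (lowLeaf n b d β)) :
              Fml ((Fin 3 × Fin n × Fin n) ⊕ Fin 0) (Ext (fun _ => ℤ) 0) w q d).eval
                (ext (D := fun _ => ℤ) x y) ⟨u % b, by omega⟩ =
                lowLeaf n b d β v ⟨u % b, by omega⟩ := by
              rw [hv]
              rfl
            rw [h5]
            unfold lowLeaf
            rw [← hu, if_pos ⟨hβ, rfl⟩, mul_one]
            have h6 : u % b + b * (u / b % b) + b * b * β = u := by
              have h7 := Nat.mod_add_div u b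
              have h8 := Nat.mod_add_div (u / b) b
              rw [Nat.div_div_eq_div_mul, hβ] at h8
              calc u % b + b * (u / b % b) + b * b * β = u % b + b * (u / b % b + b * β) := by ring
                _ = u := by rw [h8, h7]
            simp only [h6]
            rfl
          · rintro ⟨p1, p2⟩ - hp
            by_cases h7 : u / b % b = p1.val
            · have h8 : p2.val ≠ u % b := by
                intro h8
                apply hp
                rw [Prod.mk.injEq]
                exact ⟨Fin.ext h7.symm, Fin.ext h8⟩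
              have h5 : (Fml.leaf (Leaf.item (Sum.inl (0, i, j)) (lowLeaf n b d β)) :
                Fml ((Fin 3 × Fin n × Fin n) ⊕ Fin 0) (Ext (fun _ => ℤ) 0) w q d).eval
                  (ext (D := fun _ => ℤ) x y) ⟨p2.val, by omega⟩ =
                  lowLeaf n b d β v ⟨p2.val, by omega⟩ := by
                rw [hv]
                rfl
              simp only [h5]
              have h9 : lowLeaf n b d β v ⟨p2.val, by omega⟩ = 0 := by
                unfold lowLeaf
                rw [← hu, if_neg (fun h => h8 h.2)]
              rw [h9]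
              simp
            · rw [if_neg]
              intro h8
              have h9 := congrArg Fin.val h8
              simp only at h9
              omega
          · intro h
            exact absurd (mem_univ _) h
        · intro a _ ha
          have h3 : highLeaf n b d β v a = 0 := by
            unfold highLeaf
            rw [← hu, if_neg]
            rintro ⟨-, h⟩
            exact ha (Fin.ext h)
          rw [h3, zero_mul]
        · intro h
          exact absurd (mem_univ _) h
      · rw [if_neg hβ]
        apply sum_eq_zero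
        intro a _
        have h3 : highLeaf n b d β v a = 0 := by
          unfold highLeaf
          rw [← hu, if_neg (fun h => hβ h.1)]
        rw [h3, zero_mul]
    · rw [if_neg ht, if_neg ht]
  · simp only [Fml.size, Leaf.size, hG2]
    have h1 := price_le (w := w) (q := q) (d := d) ((0, i, j) : Fin 3 × Fin n × Fin n)
    have h2 : ∑ p : Fin b × Fin b, (S p).size
        ((Circ.nil : Circ (Fin 3 × Fin n × Fin n) (fun _ => ℤ) w q d 0).price (edges n)) = 0 := by
      apply sum_eq_zero
      intro p _
      rw [hS]
      simp only [Fml.size, hR2, add_zero]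
      apply sum_eq_zero
      intro k _
      simp only [pathFml, Fml.size, Leaf.size]
      rw [price_free _ (by simp), price_free _ (by simp)]
      rfl
    omega

/-- Circuits of dimension `d ≥ 2 b`: one formula in which each of the weights of the edges between
the first two parts is read `2 ((2 n + 3) / b ^ 2 + 1)` times. -/
theorem upper_dim (n w q b d : ℕ) (hb : 1 ≤ b) (hd : 2 * b ≤ d) :
    ∃ C : Circuit (Fin 3 × Fin n × Fin n) (fun _ => ℤ) w q d, C.bits = 0 ∧
      C.circ.cost (edges n) ≤ 2 * n ^ 2 * ((2 * n + 3) / b ^ 2 + 1) + 1 ∧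
        ∀ x, InRange x → C.eval x = zeroTri x := by
  classical
  choose G hG1 hG2 using fun p : Fin n × Fin n × Fin ((2 * n + 3) / b ^ 2 + 1) =>
    exists_block (n := n) (w := w) (q := q) hb hd p.1 p.2.1 p.2.2.val
  obtain ⟨F, h1, h2⟩ := exists_sum univ G
  obtain ⟨C, h3, h4, h5⟩ := exists_circuit_of_fml F (edges n)
  refine ⟨C, h3, ?_, fun x hx => ?_⟩
  · rw [h4, h2]
    have h6 := sum_le_sum (s := univ) (fun p _ => hG2 p)
    simp only [sum_const, card_univ, Fintype.card_prod, Fintype.card_fin, smul_eq_mul] at h6
    have h7 : n * (n * ((2 * n + 3) / b ^ 2 + 1)) * 2 =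
      2 * n ^ 2 * ((2 * n + 3) / b ^ 2 + 1) := by ring
    omega
  · rw [h5]
    unfold Fml.accepts
    simp only [h1, hG1]
    have h6 : ∀ p : Fin n × Fin n, code n (x (0, p.1, p.2)) ≤ 2 * n + 2 ∧
        ((code n (x (0, p.1, p.2)) : ℕ) : ℤ) - (n + 1) = x (0, p.1, p.2) := by
      intro p
      have h7 := abs_le.1 (hx (0, p.1, p.2))
      unfold code
      constructor <;> omega
    have h7 : ∑ t : Fin d, ∑ p : Fin n × Fin n × Fin ((2 * n + 3) / b ^ 2 + 1),
        (if t.val = 0 then (if code n (x (0, p.1, p.2.1)) / (b * b) = p.2.2.val then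
          paths x p.1 p.2.1 ((code n (x (0, p.1, p.2.1)) : ℤ) - (n + 1)) else 0) else 0) =
        ∑ i : Fin n, ∑ j : Fin n, paths x i j (x (0, i, j)) := by
      rw [sum_eq_single (⟨0, by omega⟩ : Fin d)]
      · simp only [if_true]
        rw [Fintype.sum_prod_type]
        refine sum_congr rfl fun i _ => ?_
        rw [Fintype.sum_prod_type]
        refine sum_congr rfl fun j _ => ?_
        obtain ⟨h8, h9⟩ := h6 (i, j)
        simp only at h8 h9
        have h10 : code n (x (0, i, j)) / (b * b) < (2 * n + 3) / b ^ 2 + 1 := by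
          have h11 : code n (x (0, i, j)) / (b * b) ≤ (2 * n + 3) / (b * b) :=
            Nat.div_le_div_right (by omega)
          rw [pow_two]
          omega
        rw [sum_eq_single (⟨_, h10⟩ : Fin ((2 * n + 3) / b ^ 2 + 1))]
        · simp only [if_true, h9]
        · intro β _ hβ
          rw [if_neg]
          intro h
          exact hβ (Fin.ext h.symm)
        · intro h
          exact absurd (mem_univ _) h
      · intro t _ ht
        apply sum_eq_zero
        intro p _
        rw [if_neg]
        intro h
        exact ht (Fin.ext h)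
      · intro h
        exact absurd (mem_univ _) h
    rw [h7]
    unfold zeroTri
    rw [Bool.eq_iff_iff, decide_eq_true_iff, decide_eq_true_iff]
    have hp : ∀ i j : Fin n, 0 ≤ paths x i j (x (0, i, j)) := by
      intro i j
      unfold paths
      apply sum_nonneg
      intro k _
      split_ifs <;> norm_num
    constructor
    · intro h
      by_contra hc
      push Not at hc
      have h8 : ∑ i : Fin n, ∑ j : Fin n, paths x i j (x (0, i, j)) = 0 := by
        apply sum_eq_zero
        intro i _
        apply sum_eq_zero
        intro j _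
        unfold paths
        apply sum_eq_zero
        intro k _
        rw [if_neg]
        intro h9
        exact hc i j k (by omega)
      rw [h8] at h
      exact lt_irrefl _ h
    · rintro ⟨i, j, k, h⟩
      have h8 : (1 : ℝ) ≤ paths x i j (x (0, i, j)) := by
        unfold paths
        calc (1 : ℝ) = if x (1, j, k) + x (2, i, k) + x (0, i, j) = 0 then 1 else 0 := by
              rw [if_pos (by omega)]
          _ ≤ _ := single_le_sum (f := fun k =>
              if x (1, j, k) + x (2, i, k) + x (0, i, j) = 0 then (1 : ℝ) else 0)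
            (fun k _ => by split_ifs <;> norm_num) (mem_univ k)
      have h9 : paths x i j (x (0, i, j)) ≤ ∑ j : Fin n, paths x i j (x (0, i, j)) :=
        single_le_sum (f := fun j => paths x i j (x (0, i, j))) (fun j _ => hp i j) (mem_univ j)
      have h10 : ∑ j : Fin n, paths x i j (x (0, i, j)) ≤
          ∑ i : Fin n, ∑ j : Fin n, paths x i j (x (0, i, j)) :=
        single_le_sum (f := fun i => ∑ j : Fin n, paths x i j (x (0, i, j)))
          (fun i _ => sum_nonneg fun j _ => hp i j) (mem_univ i)
      linarith

end Pool.Agent.N452.TF.ExactTri
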