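import Pool.Agent.N452.TF.Lower
import Pool.Agent.N452.TF.Xor
import Pool.Agent.Y638.RF.MinPlus

set_option autoImplicit false

/-! # Shortest paths of length two -/

namespace Pool.Agent.N452.TF.MinPlus

open Finset Pool.Agent.TH697.Form Pool.Agent.TH697.Row Pool.Agent.TH697.Form.MinPlus
open Pool.Agent.TH457.Ary.MinPlus Pool.Agent.Y638.RF.MinPlus
open Pool.Agent.N452.TF.Xor (pairs)

variable {n c w d : ℕ}

/-- the arithmetic -/
theorem arith {n b c w d L l s : ℝ} (hn : 16 ≤ n) (hb : 4 ≤ b) (hc : 1 ≤ c) (hw : 1 ≤ w)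
    (hd : 1 ≤ d) (hl0 : 0 ≤ l) (hl : l ≤ 5 / 4 * b) (hL : L = c * l) (hs : 0 ≤ s)
    (h : n * ((49 / 600 - 0) * (n ^ 2 * b) - 1) ≤
      (3 + (2 * d ^ 2 + 8 * d + 7) * (7 * l) + 2 * (w - 1) * L) * s) :
    n ^ 3 ≤ 1900 * (w * c + d ^ 2) * s := by
  have h0 : 256 ≤ n ^ 2 := by nlinarith
  have h00 : 256 * b ≤ n ^ 2 * b := mul_le_mul_of_nonneg_right h0 (by linarith)
  have h1 : 2 / 25 * (n ^ 2 * b) ≤ (49 / 600 - 0) * (n ^ 2 * b) - 1 := by linarith
  have h2 : n * (2 / 25 * (n ^ 2 * b)) ≤ n * ((49 / 600 - 0) * (n ^ 2 * b) - 1) :=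
    mul_le_mul_of_nonneg_left h1 (by linarith)
  have hd2 : 1 ≤ d ^ 2 := by nlinarith
  have h3 : 3 + (2 * d ^ 2 + 8 * d + 7) * (7 * l) + 2 * (w - 1) * L ≤
      150 * (w * c + d ^ 2) * b := by
    rw [hL]
    have h4 : (w - 1) * (c * l) ≤ (w - 1) * (c * (5 / 4 * b)) :=
      mul_le_mul_of_nonneg_left (mul_le_mul_of_nonneg_left hl (by linarith)) (by linarith)
    have h5 : 2 * d ^ 2 + 8 * d + 7 ≤ 17 * d ^ 2 := by nlinarith
    have h6 : (2 * d ^ 2 + 8 * d + 7) * (7 * l) ≤ 17 * d ^ 2 * (7 * (5 / 4 * b)) := by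
      apply mul_le_mul h5 (by linarith) (by linarith) (by positivity)
    have h7 : b ≤ d ^ 2 * b := by nlinarith
    have h8 : 0 ≤ c * b := by positivity
    have h9 : 0 ≤ w * (c * b) := by positivity
    have h10 : (w - 1) * (c * (5 / 4 * b)) ≤ 5 / 4 * (w * (c * b)) := by nlinarith
    nlinarith
  have h4 := mul_le_mul_of_nonneg_right h3 hs
  have h5 : b * n ^ 3 ≤ b * (1900 * (w * c + d ^ 2) * s) := by
    have e1 : n * (2 / 25 * (n ^ 2 * b)) = 2 / 25 * (b * n ^ 3) := by ring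
    rw [e1] at h2
    have h8 : 0 ≤ (w * c + d ^ 2) * b * s := by positivity
    nlinarith
  exact le_of_mul_le_mul_left h5 (by linarith)

theorem bound (hn : 16 ≤ n) (hc : 1 ≤ c) (hw : 1 ≤ w) (hd : 1 ≤ d)
    {Ω : Type} [Fintype Ω] (μ : Ω → ℝ) (hμ : IsProb μ) (s : ℕ)
    (C : Ω → Circuit (Option (Fin n)) (Item n) w (n ^ c) d)
    (hs : ∀ ω, (C ω).circ.cost (pairs n) ≤ s)
    (hF : ApproximatesOn μ (fun ω => (C ω).eval) (InRange n (n + 1)) (shortcut n)) :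
    (n : ℝ) ^ 3 ≤ 1900 * (w * c + (d : ℝ) ^ 2) * s := by
  classical
  have hw' : (1 : ℝ) ≤ w := by exact_mod_cast hw
  have hc' : (1 : ℝ) ≤ c := by exact_mod_cast hc
  have hd' : (1 : ℝ) ≤ d := by exact_mod_cast hd
  have hs0 : (0 : ℝ) ≤ s := Nat.cast_nonneg s
  by_cases hsn : n ^ 3 ≤ s
  · have h1 : (n : ℝ) ^ 3 ≤ s := by exact_mod_cast hsn
    have h2 : (1 : ℝ) ≤ w * c := by nlinarith
    have h3 : (1 : ℝ) ≤ 1900 * (w * c + (d : ℝ) ^ 2) := by nlinarith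
    nlinarith
  obtain ⟨b, hb⟩ : ∃ b, b = Nat.log 2 n := ⟨_, rfl⟩
  have hb4 : 4 ≤ b := by
    have := Nat.log_mono_right (b := 2) hn
    rw [hb]
    rwa [show Nat.log 2 16 = 4 by decide +kernel] at this
  have hpow : 2 ^ b ≤ n := by
    rw [hb]
    exact Nat.pow_log_le_self 2 (by omega)
  have hpow2 : n < 2 ^ (b + 1) := by
    have := Nat.lt_pow_succ_log_self (b := 2) (by norm_num) n
    rw [hb]
    exact this
  have hM : 4 * n ^ 3 * (3 * s + 1) + 2 + s ≤ n ^ 7 := by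
    have h1 : s < n ^ 3 := by omega
    have h2 : 4 * n ^ 3 * (3 * s + 1) ≤ 4 * n ^ 3 * (3 * n ^ 3) := Nat.mul_le_mul_left _ (by omega)
    have h3 : 4 * n ^ 3 * (3 * n ^ 3) = 12 * n ^ 6 := by ring
    have h4 : n ^ 3 ≤ n ^ 6 := Nat.pow_le_pow_right (by omega) (by norm_num)
    have h5 : 16 * n ^ 6 ≤ n ^ 7 := by
      calc 16 * n ^ 6 ≤ n * n ^ 6 := Nat.mul_le_mul_right _ hn
        _ = n ^ 7 := by ring
    have h6 : 1 ≤ n ^ 6 := Nat.one_le_pow _ _ (by omega)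
    omega
  have h := circuit_lower μ hμ s C (InRange n (2 ^ b + 1)) (shortcut n)
    (approx_mono μ _ _ _ _ (fun x hx => inRange_mono (by omega) x hx) hF)
    (Nat.one_le_pow _ _ (by omega)) hw (n ^ 3) (n ^ 7) hM 0 (pairs n) hs
    (T := Fin n × Fin n × Fin b) (by
      intro a ha
      unfold pairs at ha
      rw [mem_map] at ha
      obtain ⟨i, -, rfl⟩ := ha
      exact asks hpow i)
  unfold pairs at h
  rw [card_map, card_univ, Fintype.card_fin, card_T] at h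
  push_cast at h
  simp only [Real.logb_pow] at h
  push_cast at h
  refine arith (l := Real.logb 2 n) (L := c * Real.logb 2 n) (by exact_mod_cast hn)
    (by exact_mod_cast hb4) hc' hw' hd'
    (Real.logb_nonneg (by norm_num) (by exact_mod_cast (by omega : 1 ≤ n))) ?_ rfl hs0 h
  have h9 := logb_q (c := 1) (by omega) hb4 hpow2
  simpa using h9

/-- exhaustive search -/
theorem upper (n q : ℕ) : ∃ C : Circuit (Option (Fin n)) (Item n) 1 q 1,
    C.bits = 0 ∧ C.circ.cost (pairs n) ≤ 2 * n ^ 3 + 1 ∧ ∀ x, C.eval x = shortcut n x := by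
  obtain ⟨F, h1, h2⟩ := Pool.Agent.Y638.RF.MinPlus.upper n 1 q
  obtain ⟨B, h3, h4⟩ := Pool.Agent.Y638.RF.exists_program F (2 * n ^ 3 + 1) (by omega)
  obtain ⟨C, h5, h6, h7⟩ := exists_circuit le_rfl B (pairs n)
  refine ⟨C, h5, h6.trans (le_of_eq (by ring)), fun x => ?_⟩
  rw [h7, h4, h2]

end Pool.Agent.N452.TF.MinPlus
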