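import Pool.Agent.N452.TF.MinPlus
import Pool.Agent.N452.TF.Build

set_option autoImplicit false

/-! # Shortest paths of length two: circuits of dimension `d` -/

namespace Pool.Agent.N452.TF.MinPlus

open Finset Pool.Agent.TH697.Form.MinPlus
open Pool.Agent.N452.TF.Xor (pairs)

variable {n w q d : ℕ}

/-- the number `X ^ (- v k)`, or `0` if `k` is too large -/
noncomputable def powNeg (v : Fin n → ℕ) (k : ℕ) : ℝ :=
  if h : k < n then (((n : ℝ) ^ 3 + 1) ^ v ⟨k, h⟩)⁻¹ else 0

/-- the number `X ^ v k`, or `0` if `k` is too large -/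
noncomputable def powPos (v : Fin n → ℕ) (k : ℕ) : ℝ :=
  if h : k < n then ((n : ℝ) ^ 3 + 1) ^ v ⟨k, h⟩ else 0

/-- one block -/
noncomputable def blk (n w q d : ℕ) (p : Fin n × Fin (n / d + 1) × Fin (n / d + 1)) :
    Fml (Option (Fin n) ⊕ Fin 0) (Ext (Item n) 0) w q d :=
  .bil (fun a e j => if a = e ∧ j.val = 0 then 1 else 0)
    (.leaf (.item (Sum.inl (some p.1))
      (fun (v : (Fin n → ℕ) × (Fin n → ℕ)) t => powPos v.2 (t.val + d * p.2.2.val))))
    (.act (.item (Sum.inl none) (fun (B : Fin n → Fin n → ℕ) t t' =>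
      if h : t'.val + d * p.2.1.val < n then powNeg (B ⟨_, h⟩) (t.val + d * p.2.2.val) else 0))
    (.leaf (.item (Sum.inl (some p.1))
      (fun (v : (Fin n → ℕ) × (Fin n → ℕ)) t => powNeg v.1 (t.val + d * p.2.1.val)))))

/-- the sum of the coordinates of the value of a block -/
theorem blk_eval (hd : 1 ≤ d) (p : Fin n × Fin (n / d + 1) × Fin (n / d + 1)) (x : ∀ i, Item n i)
    (b : Fin 0 → Bool) :
    ∑ j, (blk n w q d p).eval (ext x b) j = ∑ t : Fin d, ∑ t' : Fin d,
      powPos (x (some p.1)).2 (t.val + d * p.2.2.val) *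
        ((if h : t'.val + d * p.2.1.val < n then
          powNeg (x none ⟨_, h⟩) (t.val + d * p.2.2.val) else 0) *
            powNeg (x (some p.1)).1 (t'.val + d * p.2.1.val)) := by
  have h1 : ∀ j : Fin d, (blk n w q d p).eval (ext x b) j = if j.val = 0 then
      ∑ t : Fin d, ∑ t' : Fin d,
      powPos (x (some p.1)).2 (t.val + d * p.2.2.val) *
        ((if h : t'.val + d * p.2.1.val < n then
          powNeg (x none ⟨_, h⟩) (t.val + d * p.2.2.val) else 0) *
            powNeg (x (some p.1)).1 (t'.val + d * p.2.1.val)) else 0 := by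
    intro j
    have h2 : (blk n w q d p).eval (ext x b) j = ∑ a : Fin d, ∑ e : Fin d,
        (if a = e ∧ j.val = 0 then (1 : ℝ) else 0) *
        (powPos (x (some p.1)).2 (a.val + d * p.2.2.val) *
          ∑ t' : Fin d, (if h : t'.val + d * p.2.1.val < n then
            powNeg (x none ⟨_, h⟩) (e.val + d * p.2.2.val) else 0) *
              powNeg (x (some p.1)).1 (t'.val + d * p.2.1.val)) := rfl
    rw [h2]
    by_cases hj : j.val = 0
    · rw [if_pos hj]
      refine sum_congr rfl fun a _ => ?_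
      rw [sum_eq_single a]
      · rw [if_pos ⟨rfl, hj⟩, one_mul, mul_sum]
      · intro e _ he
        rw [if_neg (fun h => he h.1.symm), zero_mul]
      · intro h
        exact absurd (mem_univ _) h
    · rw [if_neg hj]
      apply sum_eq_zero
      intro a _
      apply sum_eq_zero
      intro e _
      rw [if_neg (fun h => hj h.2), zero_mul]
  rw [sum_congr rfl (fun j _ => h1 j)]
  rw [sum_eq_single (⟨0, hd⟩ : Fin d)]
  · rw [if_pos rfl]
  · intro j _ hj
    rw [if_neg]
    intro h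
    exact hj (Fin.ext h)
  · intro h
    exact absurd (mem_univ _) h

/-- the sum over all blocks -/
theorem sum_blk (hd : 1 ≤ d) (x : ∀ i, Item n i) (b : Fin 0 → Bool) :
    ∑ p : Fin n × Fin (n / d + 1) × Fin (n / d + 1), ∑ j, (blk n w q d p).eval (ext x b) j =
      ∑ i : Fin n, ∑ k : Fin n, ∑ j : Fin n, ((n : ℝ) ^ 3 + 1) ^ (x (some i)).2 j *
        ((((n : ℝ) ^ 3 + 1) ^ x none k j)⁻¹ * (((n : ℝ) ^ 3 + 1) ^ (x (some i)).1 k)⁻¹) := by
  rw [Fintype.sum_prod_type]
  refine sum_congr rfl fun i _ => ?_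
  rw [Fintype.sum_prod_type]
  obtain ⟨g, hg⟩ : ∃ g : ℕ → ℕ → ℝ, g = fun k j => powPos (x (some i)).2 j *
      ((if h : k < n then powNeg (x none ⟨k, h⟩) j else 0) * powNeg (x (some i)).1 k) := ⟨_, rfl⟩
  have h1 : ∀ a c : Fin (n / d + 1), ∑ j, (blk n w q d (i, a, c)).eval (ext x b) j =
      ∑ t : Fin d, ∑ t' : Fin d, g (t'.val + d * a.val) (t.val + d * c.val) := by
    intro a c
    rw [blk_eval hd, hg]
  simp only [h1]
  rw [sum_blocks₂ hd]
  · refine sum_congr rfl fun k _ => sum_congr rfl fun j _ => ?_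
    rw [hg]
    simp only [powPos, powNeg, k.2, j.2, dif_pos]
  · rintro k j (h | h)
    · rw [hg]
      simp only
      rw [dif_neg (by omega), zero_mul, mul_zero]
    · rw [hg]
      simp only [powPos]
      rw [dif_neg (by omega), zero_mul]

theorem sum_pos_iff (x : ∀ i, Item n i) :
    (n : ℝ) ^ 3 < ∑ i : Fin n, ∑ k : Fin n, ∑ j : Fin n,
      ((n : ℝ) ^ 3 + 1) ^ (x (some i)).2 j *
        ((((n : ℝ) ^ 3 + 1) ^ x none k j)⁻¹ * (((n : ℝ) ^ 3 + 1) ^ (x (some i)).1 k)⁻¹) ↔
      ∃ i k j, (x (some i)).1 k + x none k j < (x (some i)).2 j := by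
  obtain ⟨X, hX⟩ : ∃ X : ℝ, X = (n : ℝ) ^ 3 + 1 := ⟨_, rfl⟩
  rw [← hX]
  have hX1 : 1 ≤ X := by
    rw [hX]
    have : (0 : ℝ) ≤ (n : ℝ) ^ 3 := by positivity
    linarith
  have hX0 : 0 < X := by linarith
  have hpos : ∀ (i k j : Fin n), 0 ≤ X ^ (x (some i)).2 j *
      ((X ^ x none k j)⁻¹ * (X ^ (x (some i)).1 k)⁻¹) := fun i k j => by positivity
  constructor
  · intro h
    by_contra hc
    push Not at hc
    have h1 : ∀ (i k j : Fin n), X ^ (x (some i)).2 j *
        ((X ^ x none k j)⁻¹ * (X ^ (x (some i)).1 k)⁻¹) ≤ 1 := by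
      intro i k j
      rw [← mul_inv, ← pow_add, ← div_eq_mul_inv, div_le_one (by positivity)]
      apply pow_le_pow_right₀ hX1
      have := hc i k j
      omega
    have h2 : ∑ i : Fin n, ∑ k : Fin n, ∑ j : Fin n, X ^ (x (some i)).2 j *
        ((X ^ x none k j)⁻¹ * (X ^ (x (some i)).1 k)⁻¹) ≤
        ∑ _i : Fin n, ∑ _k : Fin n, ∑ _j : Fin n, (1 : ℝ) :=
      sum_le_sum fun i _ => sum_le_sum fun k _ => sum_le_sum fun j _ => h1 i k j
    simp only [sum_const, card_univ, Fintype.card_fin, nsmul_eq_mul, mul_one] at h2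
    have h3 : (n : ℝ) * (n * n) = (n : ℝ) ^ 3 := by ring
    rw [h3] at h2
    linarith
  · rintro ⟨i, k, j, h⟩
    have h1 : X ≤ X ^ (x (some i)).2 j * ((X ^ x none k j)⁻¹ * (X ^ (x (some i)).1 k)⁻¹) := by
      rw [← mul_inv, ← pow_add, ← div_eq_mul_inv, le_div_iff₀ (by positivity), ← pow_succ']
      apply pow_le_pow_right₀ hX1
      omega
    have h2 : X ^ (x (some i)).2 j * ((X ^ x none k j)⁻¹ * (X ^ (x (some i)).1 k)⁻¹) ≤
        ∑ j : Fin n, X ^ (x (some i)).2 j * ((X ^ x none k j)⁻¹ * (X ^ (x (some i)).1 k)⁻¹) :=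
      single_le_sum (f := fun j => X ^ (x (some i)).2 j *
        ((X ^ x none k j)⁻¹ * (X ^ (x (some i)).1 k)⁻¹)) (fun j _ => hpos i k j) (mem_univ j)
    have h3 : ∑ j : Fin n, X ^ (x (some i)).2 j *
        ((X ^ x none k j)⁻¹ * (X ^ (x (some i)).1 k)⁻¹) ≤
        ∑ k : Fin n, ∑ j : Fin n, X ^ (x (some i)).2 j *
          ((X ^ x none k j)⁻¹ * (X ^ (x (some i)).1 k)⁻¹) :=
      single_le_sum (f := fun k => ∑ j : Fin n, X ^ (x (some i)).2 j *
        ((X ^ x none k j)⁻¹ * (X ^ (x (some i)).1 k)⁻¹))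
        (fun k _ => sum_nonneg fun j _ => hpos i k j) (mem_univ k)
    have h4 : ∑ k : Fin n, ∑ j : Fin n, X ^ (x (some i)).2 j *
        ((X ^ x none k j)⁻¹ * (X ^ (x (some i)).1 k)⁻¹) ≤
        ∑ i : Fin n, ∑ k : Fin n, ∑ j : Fin n, X ^ (x (some i)).2 j *
          ((X ^ x none k j)⁻¹ * (X ^ (x (some i)).1 k)⁻¹) :=
      single_le_sum (f := fun i => ∑ k : Fin n, ∑ j : Fin n, X ^ (x (some i)).2 j *
        ((X ^ x none k j)⁻¹ * (X ^ (x (some i)).1 k)⁻¹))
        (fun i _ => sum_nonneg fun k _ => sum_nonneg fun j _ => hpos i k j) (mem_univ i)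
    linarith

/-- Circuits of dimension `d`: one formula in which the weights at every vertex of the first layer
are read `2 (n / d + 1) ^ 2` times. -/
theorem upper_dim (n w q d : ℕ) (hd : 1 ≤ d) : ∃ C : Circuit (Option (Fin n)) (Item n) w q d,
    C.bits = 0 ∧ C.circ.cost (pairs n) ≤ 2 * n * (n / d + 1) ^ 2 + 1 ∧
      ∀ x, C.eval x = shortcut n x := by
  obtain ⟨F, h1, h2⟩ := exists_sum (univ : Finset (Fin n × Fin (n / d + 1) × Fin (n / d + 1)))
    (blk n w q d)
  obtain ⟨C, h3, h4, h5⟩ := exists_circuit_of_fml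
    (.add F (.const (fun j => if j.val = 0 then -(n : ℝ) ^ 3 else 0))) (pairs n)
  refine ⟨C, h3, ?_, fun x => ?_⟩
  · rw [h4]
    simp only [Fml.size, h2, add_zero]
    have h6 : ∀ p : Fin n × Fin (n / d + 1) × Fin (n / d + 1),
        (blk n w q d p).size ((Circ.nil : Circ (Option (Fin n)) (Item n) w q d 0).price
          (pairs n)) ≤ 2 := by
      intro p
      simp only [blk, Fml.size, Leaf.size]
      rw [price_nil, price_nil]
      have h7 : (none : Option (Fin n)) ∉ pairs n := by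
        unfold pairs
        simp
      rw [if_neg h7]
      split_ifs <;> omega
    have h7 := sum_le_sum (s := univ) (fun p _ => h6 p)
    simp only [sum_const, card_univ, Fintype.card_prod, Fintype.card_fin, smul_eq_mul] at h7
    have h8 : n * ((n / d + 1) * (n / d + 1)) * 2 = 2 * n * (n / d + 1) ^ 2 := by ring
    omega
  · rw [h5]
    unfold Fml.accepts shortcut
    rw [Bool.eq_iff_iff, decide_eq_true_iff, decide_eq_true_iff, ← sum_pos_iff x]
    simp only [Fml.eval, sum_add_distrib, h1]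
    rw [sum_comm, sum_blk hd]
    have h9 : ∑ j : Fin d, (if j.val = 0 then -(n : ℝ) ^ 3 else 0) = -(n : ℝ) ^ 3 := by
      rw [sum_eq_single (⟨0, hd⟩ : Fin d)]
      · rw [if_pos rfl]
      · intro j _ hj
        rw [if_neg]
        intro h
        exact hj (Fin.ext h)
      · intro h
        exact absurd (mem_univ _) h
    rw [h9]
    constructor
    · intro h
      linarith
    · intro h
      linarith

end Pool.Agent.N452.TF.MinPlus
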