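import Pool.Agent.N452.TF.Lower
import Pool.Agent.Y638.RF.Tri

set_option autoImplicit false

/-! # Triangles -/

namespace Pool.Agent.N452.TF.Tri

open Finset Pool.Agent.TH697.Form Pool.Agent.TH697.Row
open Pool.Agent.TH457.Ary.Tri
open Pool.Agent.TH457.Ary.Sat (exists_k)
open Pool.Agent.Y638.RF Pool.Agent.Y638.RF.Tri

variable {m c w d : ℕ}

/-- the arithmetic -/
theorem arith {m k c w d N l s : ℝ} (hm : 1000 ≤ m) (hk : 4 ≤ k) (hc : 1 ≤ c) (hw : 1 ≤ w)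
    (hd : 1 ≤ d) (hN : m * k / 2 ≤ N) (hl0 : 0 ≤ l) (hl : l ≤ 5 / 2 * k) (hs : 0 ≤ s)
    (h : m * ((49 / 600 - 0) * N - 1) ≤
      (3 + (2 * d ^ 2 + 8 * d + 7) * (5 * l) + 2 * (w - 1) * (c * l)) * s) :
    m ^ 2 ≤ 5400 * (w * c + d ^ 2) * s := by
  have h0 : 1000 * k ≤ m * k := mul_le_mul_of_nonneg_right hm (by linarith)
  have h1 : m * k / 25 ≤ (49 / 600 - 0) * N - 1 := by linarith
  have h2 : m * (m * k / 25) ≤ m * ((49 / 600 - 0) * N - 1) :=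
    mul_le_mul_of_nonneg_left h1 (by linarith)
  have hd2 : 1 ≤ d ^ 2 := by nlinarith
  have h3 : 3 + (2 * d ^ 2 + 8 * d + 7) * (5 * l) + 2 * (w - 1) * (c * l) ≤
      216 * (w * c + d ^ 2) * k := by
    have h4 : (w - 1) * (c * l) ≤ (w - 1) * (c * (5 / 2 * k)) :=
      mul_le_mul_of_nonneg_left (mul_le_mul_of_nonneg_left hl (by linarith)) (by linarith)
    have h5 : 2 * d ^ 2 + 8 * d + 7 ≤ 17 * d ^ 2 := by nlinarith
    have h6 : (2 * d ^ 2 + 8 * d + 7) * (5 * l) ≤ 17 * d ^ 2 * (5 * (5 / 2 * k)) := by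
      apply mul_le_mul h5 (by linarith) (by linarith) (by positivity)
    have h7 : k ≤ d ^ 2 * k := by nlinarith
    have h8 : 0 ≤ c * k := by positivity
    have h9 : 0 ≤ w * (c * k) := by positivity
    have h10 : (w - 1) * (c * (5 / 2 * k)) ≤ 5 / 2 * (w * (c * k)) := by nlinarith
    nlinarith
  have h4 := mul_le_mul_of_nonneg_right h3 hs
  have h5 : k * m ^ 2 ≤ k * (5400 * (w * c + d ^ 2) * s) := by
    have e1 : m * (m * k / 25) = k * m ^ 2 / 25 := by ring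
    have e2 : 216 * (w * c + d ^ 2) * k * s = k * (5400 * (w * c + d ^ 2) * s) / 25 := by ring
    rw [e1] at h2
    rw [e2] at h4
    linarith
  exact le_of_mul_le_mul_left h5 (by linarith)

theorem bound (hm : 1000 ≤ m) (hc : 1 ≤ c) (hw : 1 ≤ w) (hd : 1 ≤ d)
    {Ω : Type} [Fintype Ω] (μ : Ω → ℝ) (hμ : IsProb μ) (s : ℕ)
    (C : Ω → Circuit (Fin m) (fun _ => Edge (2 * m)) w (m ^ c) d)
    (hs : ∀ ω, (C ω).circ.cost univ ≤ s)
    (hC : ApproximatesOn μ (fun ω => (C ω).eval) Simple triangle) :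
    (m : ℝ) ^ 2 ≤ 5400 * (w * c + (d : ℝ) ^ 2) * s := by
  classical
  have hw' : (1 : ℝ) ≤ w := by exact_mod_cast hw
  have hc' : (1 : ℝ) ≤ c := by exact_mod_cast hc
  have hd' : (1 : ℝ) ≤ d := by exact_mod_cast hd
  have hs0 : (0 : ℝ) ≤ s := Nat.cast_nonneg s
  by_cases hsm : m ^ 2 ≤ s
  · have h1 : (m : ℝ) ^ 2 ≤ s := by exact_mod_cast hsm
    have h2 : (1 : ℝ) ≤ w * c := by nlinarith
    have h3 : (1 : ℝ) ≤ 5400 * (w * c + (d : ℝ) ^ 2) := by nlinarith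
    nlinarith
  obtain ⟨k, hk, hk1, hk2⟩ := exists_k (m := m) (by omega)
  have hM : 4 * (4 * m ^ 2) * (3 * s + 1) + 2 + s ≤ m ^ 5 := by
    have h1 : s < m ^ 2 := by omega
    have h2 : 4 * (4 * m ^ 2) * (3 * s + 1) ≤ 4 * (4 * m ^ 2) * (3 * m ^ 2) :=
      Nat.mul_le_mul_left _ (by omega)
    have h3 : 4 * (4 * m ^ 2) * (3 * m ^ 2) = 48 * m ^ 4 := by ring
    have h4 : m ^ 2 ≤ m ^ 4 := Nat.pow_le_pow_right (by omega) (by norm_num)
    have h5 : 1000 * m ^ 4 ≤ m ^ 5 := by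
      calc 1000 * m ^ 4 ≤ m * m ^ 4 := Nat.mul_le_mul_right _ hm
        _ = m ^ 5 := by ring
    have h6 : 1 ≤ m ^ 4 := Nat.one_le_pow _ _ (by omega)
    omega
  have h := circuit_lower (D := fun _ : Fin m => Edge (2 * m)) μ hμ s C Simple triangle hC
    (Nat.one_le_pow _ _ (by omega)) hw (4 * m ^ 2) (m ^ 5) hM 0 univ hs (T := Fin (M m k) × Fin k)
    (fun p _ => asks (by omega) hk1 p)
  rw [card_univ (α := Fin m), Fintype.card_fin, Nat.cast_pow m 5, Nat.cast_pow m c,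
    Real.logb_pow, Real.logb_pow] at h
  refine arith (N := ((Fintype.card (Fin (M m k) × Fin k) : ℕ) : ℝ))
    (l := Real.logb 2 (m : ℝ)) (by exact_mod_cast hm)
    (by exact_mod_cast hk) hc' hw' hd' (card_T (by omega) hk1)
    (Real.logb_nonneg (by norm_num) (by exact_mod_cast (by omega : 1 ≤ m)))
    (logb_m hk (by omega) hk2) hs0 ?_
  push_cast at h ⊢
  exact h

end Pool.Agent.N452.TF.Tri
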